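import Mathlib

set_option autoImplicit false

/-!
The integral of a Bernstein polynomial over `[0,1]` is `1/(z+1)`, and the resulting averaging
inequality.
-/

namespace Pool.Agent.Lib.MP_e9f532_co.Dfc

open Finset

lemma bern_int {z : ℕ} : ∀ k, ∀ i, i + k = z →
    ∫ x in (0:ℝ)..1, (z.choose i : ℝ) * (x ^ i * (1 - x) ^ (z - i)) = 1 / ((z : ℝ) + 1) := by
  intro k
  induction k with
  | zero =>
    intro i hi
    obtain rfl : i = z := by omega
    simp
  | succ k ih =>
    intro i hi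
    have h1 := ih (i + 1) (by omega)
    obtain ⟨e, he⟩ : ∃ e, z - i = e + 1 := ⟨z - i - 1, by omega⟩
    have he1 : z - (i + 1) = e := by omega
    rw [he1] at h1
    rw [he]
    have hd : ∀ x ∈ Set.uIcc (0:ℝ) 1, HasDerivAt (fun x : ℝ => x ^ (i + 1) * (1 - x) ^ (e + 1))
        (((i : ℝ) + 1) * (x ^ i * (1 - x) ^ (e + 1)) - ((e : ℝ) + 1) * (x ^ (i + 1) * (1 - x) ^ e)) x := by
      intro x _
      have h2 : HasDerivAt (fun x : ℝ => x ^ (i + 1)) (((i + 1 : ℕ) : ℝ) * x ^ i) x := by
        have := hasDerivAt_pow (i + 1) x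
        simpa using this
      have h3 : HasDerivAt (fun x : ℝ => (1 - x) ^ (e + 1))
          (((e + 1 : ℕ) : ℝ) * (1 - x) ^ e * (-1)) x := by
        have h4 : HasDerivAt (fun x : ℝ => 1 - x) (-1) x := by
          have := (hasDerivAt_id x).const_sub 1
          simpa using this
        have := h4.fun_pow (e + 1)
        simpa using this
      have h5 := h2.mul h3
      refine h5.congr_deriv ?_
      push_cast
      ring
    have hc1 : Continuous (fun x : ℝ => ((i : ℝ) + 1) * (x ^ i * (1 - x) ^ (e + 1))) := by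
      fun_prop
    have hc2 : Continuous (fun x : ℝ => ((e : ℝ) + 1) * (x ^ (i + 1) * (1 - x) ^ e)) := by
      fun_prop
    have hint := intervalIntegral.integral_eq_sub_of_hasDerivAt hd
      ((hc1.sub hc2).intervalIntegrable 0 1)
    rw [intervalIntegral.integral_sub (hc1.intervalIntegrable 0 1) (hc2.intervalIntegrable 0 1),
      intervalIntegral.integral_const_mul, intervalIntegral.integral_const_mul] at hint
    simp only [one_pow, sub_self, ne_eq, Nat.add_eq_zero_iff, one_ne_zero, and_false,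
      not_false_eq_true, zero_pow, mul_zero, zero_mul, sub_zero] at hint
    rw [intervalIntegral.integral_const_mul] at h1 ⊢
    have hch : (z.choose (i + 1) : ℝ) * ((i : ℝ) + 1) = z.choose i * ((e : ℝ) + 1) := by
      have h6 := Nat.choose_succ_right_eq z i
      rw [he] at h6
      exact_mod_cast h6
    set J1 := ∫ x in (0:ℝ)..1, x ^ i * (1 - x) ^ (e + 1) with hJ1
    set J2 := ∫ x in (0:ℝ)..1, x ^ (i + 1) * (1 - x) ^ e with hJ2
    have hi1 : ((i : ℝ) + 1) ≠ 0 := by positivity
    have h7 : ((i : ℝ) + 1) * (z.choose i * J1) = ((i : ℝ) + 1) * (1 / ((z : ℝ) + 1)) := by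
      rw [← h1]
      have h8 : ((i : ℝ) + 1) * J1 = ((e : ℝ) + 1) * J2 := by linarith
      calc ((i : ℝ) + 1) * (z.choose i * J1) = z.choose i * (((i : ℝ) + 1) * J1) := by ring
        _ = z.choose i * (((e : ℝ) + 1) * J2) := by rw [h8]
        _ = (z.choose i * ((e : ℝ) + 1)) * J2 := by ring
        _ = (z.choose (i + 1) * ((i : ℝ) + 1)) * J2 := by rw [hch]
        _ = ((i : ℝ) + 1) * (z.choose (i + 1) * J2) := by ring
    exact mul_left_cancel₀ hi1 h7

lemma bern_le {z i : ℕ} (hi : i ≤ z) {a b : ℝ} (ha : 0 ≤ a) (hab : a ≤ b) (hb : b ≤ 1) :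
    ∫ x in a..b, (z.choose i : ℝ) * (x ^ i * (1 - x) ^ (z - i)) ≤ 1 / ((z : ℝ) + 1) := by
  rw [← bern_int (z - i) i (by omega)]
  apply intervalIntegral.integral_mono_interval ha hab hb
  · rw [Filter.EventuallyLE, MeasureTheory.ae_restrict_iff' measurableSet_Ioc]
    apply Filter.Eventually.of_forall
    intro x hx
    have h1 : 0 ≤ x := hx.1.le
    have h2 : 0 ≤ 1 - x := by linarith [hx.2]
    show (0 : ℝ) ≤ _
    positivity
  · apply Continuous.intervalIntegrable
    fun_prop

/-- Averaging with the Bernstein polynomials. -/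
theorem bern_average {z : ℕ} (I : Finset ℕ) (hI : ∀ i ∈ I, i ≤ z) (m : ℕ → ℝ)
    (hm : ∀ i, 0 ≤ m i) (κ a b : ℝ) (ha : 0 ≤ a) (hab : a ≤ b) (hb : b ≤ 1)
    (h : ∀ x, a ≤ x → x ≤ b → κ ≤ ∑ i ∈ I, m i * (x ^ i * (1 - x) ^ (z - i))) :
    κ * (b - a) * ((z : ℝ) + 1) ≤ ∑ i ∈ I, m i / z.choose i := by
  have hz : (0 : ℝ) < (z : ℝ) + 1 := by positivity
  have h1 : ∫ _x in a..b, κ ≤ ∫ x in a..b, ∑ i ∈ I, m i * (x ^ i * (1 - x) ^ (z - i)) := by
    apply intervalIntegral.integral_mono_on hab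
    · exact intervalIntegrable_const
    · apply Continuous.intervalIntegrable
      fun_prop
    · intro x hx
      exact h x hx.1 hx.2
  rw [intervalIntegral.integral_const, smul_eq_mul] at h1
  rw [intervalIntegral.integral_finsetSum (fun i _ => by
    apply Continuous.intervalIntegrable
    fun_prop)] at h1
  have h2 : ∀ i ∈ I, ∫ x in a..b, m i * (x ^ i * (1 - x) ^ (z - i)) ≤
      m i / z.choose i * (1 / ((z : ℝ) + 1)) := by
    intro i hi
    have hc : (0 : ℝ) < z.choose i := by exact_mod_cast Nat.choose_pos (hI i hi)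
    have h3 : ∀ x : ℝ, m i * (x ^ i * (1 - x) ^ (z - i)) =
        m i / z.choose i * ((z.choose i : ℝ) * (x ^ i * (1 - x) ^ (z - i))) := by
      intro x
      field_simp
    simp_rw [h3]
    rw [intervalIntegral.integral_const_mul]
    apply mul_le_mul_of_nonneg_left (bern_le (hI i hi) ha hab hb)
    exact div_nonneg (hm i) hc.le
  have h4 := sum_le_sum h2
  rw [← sum_mul] at h4
  have h5 : (b - a) * κ ≤ (∑ i ∈ I, m i / z.choose i) * (1 / ((z : ℝ) + 1)) := h1.trans h4
  rw [mul_one_div, le_div_iff₀ hz] at h5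
  linarith

end Pool.Agent.Lib.MP_e9f532_co.Dfc
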