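import Mathlib

set_option autoImplicit false

/-!
`MP_e9f532_co`, polynomial upper bound for the deficiency: definitions.

The ground set is `G N`: `N` pairs. A word `w` selects one point of every pair (`half w`), the
opposite word selects the complement. A trial `t = (w, h)` gives the two sets
`half w ∪ {h}` and `half (opp w) ∪ {h}`.
-/

namespace Pool.Agent.Lib.MP_e9f532_co.Dfc

open Finset

/-- The ground set: `N` pairs. -/
abbrev G (N : ℕ) := Fin N × Bool

/-- A trial: a word and a point. -/
abbrev Trial (N : ℕ) := (Fin N → Bool) × G N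

/-- The selected points of a word. -/
def half {N : ℕ} (w : Fin N → Bool) : Finset (G N) := univ.filter (fun p => p.2 = w p.1)

/-- The opposite word. -/
def opp {N : ℕ} (w : Fin N → Bool) : Fin N → Bool := fun i => ! w i

/-- The cube of a word and a point. -/
def cube {N : ℕ} (w : Fin N → Bool) (h : G N) : Finset (G N) := insert h (half w)

/-- The two cubes of a trial. -/
def cubes {N : ℕ} (t : Trial N) : Finset (Finset (G N)) := {cube t.1 t.2, cube (opp t.1) t.2}

/-- All cubes of a set of trials. -/
def allCubes {N : ℕ} (S : Finset (Trial N)) : Finset (Finset (G N)) := S.biUnion cubes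

/-- The common size of the two pieces of `C`. -/
def lev {N : ℕ} (C : Finset (G N)) : ℕ := (C.card + 1) / 2

/-- The trial `t` splits `C` into two pieces of size `lev C`, none of which lies in a member of
`Zs`. -/
def Cov {N : ℕ} (Zs : Finset (Finset (G N))) (t : Trial N) (C : Finset (G N)) : Prop :=
  (C ∩ cube t.1 t.2).card = lev C ∧ (C ∩ cube (opp t.1) t.2).card = lev C ∧
    ∀ Z ∈ Zs, ¬ C ∩ cube t.1 t.2 ⊆ Z ∧ ¬ C ∩ cube (opp t.1) t.2 ⊆ Z

/-- Number of coordinates in which two words differ. -/
def dist {N : ℕ} (w w' : Fin N → Bool) : ℕ := (univ.filter (fun i => w i ≠ w' i)).card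

/-- Two trials are far from each other. -/
def Far {N : ℕ} (d : ℕ) (s t : Trial N) : Prop := d < dist s.1 t.1 ∧ d < dist s.1 (opp t.1)

/-- The set `C` is regular for the family `Zs`: it has at least two points outside every member
and is near to at most one member; it is neither small nor large. -/
def Reg {N : ℕ} (q : ℕ) (Zs : Finset (Finset (G N))) (C : Finset (G N)) : Prop :=
  N ≤ 10 * C.card ∧ 10 * C.card ≤ 19 * N ∧ (∀ Z ∈ Zs, 2 ≤ (C \ Z).card) ∧
    ∀ Z ∈ Zs, ∀ Z' ∈ Zs, Z ≠ Z' → q ≤ (C \ Z).card ∨ q ≤ (C \ Z').card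

instance {N : ℕ} (Zs : Finset (Finset (G N))) (t : Trial N) (C : Finset (G N)) :
    Decidable (Cov Zs t C) := by unfold Cov; infer_instance

instance {N : ℕ} (d : ℕ) (s t : Trial N) : Decidable (Far d s t) := by
  unfold Far; infer_instance

instance {N : ℕ} (q : ℕ) (Zs : Finset (Finset (G N))) (C : Finset (G N)) :
    Decidable (Reg q Zs C) := by unfold Reg; infer_instance

/-- The trials of the levels in `(l, N]`. -/
def above {N : ℕ} (T : ℕ → Finset (Trial N)) (l : ℕ) : Finset (Trial N) :=
  (Finset.Ioc l N).biUnion T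

lemma mem_half {N : ℕ} {w : Fin N → Bool} {p : G N} : p ∈ half w ↔ p.2 = w p.1 := by
  simp [half]

lemma mem_cube {N : ℕ} {w : Fin N → Bool} {h p : G N} :
    p ∈ cube w h ↔ p = h ∨ p.2 = w p.1 := by
  simp [cube, mem_half]

lemma half_subset_cube {N : ℕ} (w : Fin N → Bool) (h : G N) : half w ⊆ cube w h :=
  Finset.subset_insert _ _

lemma mem_half_opp {N : ℕ} {w : Fin N → Bool} {p : G N} : p ∈ half (opp w) ↔ p ∉ half w := by
  simp only [mem_half, opp]
  cases p.2 <;> cases w p.1 <;> simp

lemma opp_opp {N : ℕ} (w : Fin N → Bool) : opp (opp w) = w := by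
  funext i; simp [opp]

lemma inter_cubes_union {N : ℕ} (w : Fin N → Bool) (h : G N) (C : Finset (G N)) :
    (C ∩ cube w h) ∪ (C ∩ cube (opp w) h) = C := by
  ext p
  simp only [mem_union, mem_inter]
  constructor
  · rintro (h1 | h1) <;> exact h1.1
  · intro hp
    by_cases h1 : p ∈ half w
    · exact Or.inl ⟨hp, half_subset_cube _ _ h1⟩
    · exact Or.inr ⟨hp, half_subset_cube _ _ (mem_half_opp.2 h1)⟩

end Pool.Agent.Lib.MP_e9f532_co.Dfc
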