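import Mathlib
import Pool.Agent.Lib.MP_e9f532_co.Dfc.Defs

set_option autoImplicit false

/-! Module U2 (Count). -/

namespace Pool.Agent.Lib.MP_e9f532_co.Dfc

open Finset

/-- A central binomial coefficient is at least the average. -/
lemma two_pow_le_choose {n k : ℕ} (h : 2 * k = n ∨ 2 * k + 1 = n ∨ 2 * k = n + 1) :
    2 ^ n ≤ (n + 1) * n.choose k := by
  have h1 : n.choose k = n.choose (n / 2) := by
    rcases h with h | h | h
    · congr 1; omega
    · congr 1; omega
    · have : n / 2 = n - k := by omega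
      rw [this, Nat.choose_symm (by omega)]
  rw [h1, ← Nat.sum_range_choose]
  calc ∑ m ∈ range (n + 1), n.choose m ≤ ∑ _m ∈ range (n + 1), n.choose (n / 2) :=
        Finset.sum_le_sum fun m _ => Nat.choose_le_middle m n
    _ = (n + 1) * n.choose (n / 2) := by simp

/-- Words with prescribed values on a set of points in different pairs. -/
lemma card_prescribed {N : ℕ} (D : Finset (G N)) (hD : ∀ p ∈ D, ∀ p' ∈ D, p.1 = p'.1 → p = p')
    (φ : G N → Bool) :
    (univ.filter (fun w : Fin N → Bool => ∀ p ∈ D, w p.1 = φ p)).card * 2 ^ D.card ≤ 2 ^ N := by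
  classical
  set W := univ.filter (fun w : Fin N → Bool => ∀ p ∈ D, w p.1 = φ p) with hW
  set A : Finset (Fin N) := D.image Prod.fst with hA
  have hAc : A.card = D.card := by
    rw [hA]
    exact Finset.card_image_of_injOn fun p hp p' hp' h => hD p hp p' hp' h
  have hinj : Set.InjOn (fun x : (Fin N → Bool) × Finset (Fin N) =>
      (fun i => if i ∈ x.2 then ! x.1 i else x.1 i : Fin N → Bool)) (W ×ˢ A.powerset : Finset _) := by
    rintro ⟨w, B⟩ h1 ⟨w', B'⟩ h2 h3
    simp only [coe_product, Set.mem_prod, mem_coe, mem_powerset] at h1 h2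
    simp only at h3
    obtain ⟨hw, hB⟩ := h1
    obtain ⟨hw', hB'⟩ := h2
    have hww : ∀ i ∈ A, w i = w' i := by
      intro i hi
      obtain ⟨p, hp, rfl⟩ := mem_image.1 hi
      rw [(mem_filter.1 hw).2 p hp, (mem_filter.1 hw').2 p hp]
    have hBB : B = B' := by
      ext i
      constructor
      · intro hi
        by_contra hi'
        have h4 := congrFun h3 i
        simp only [hi, hi', if_true, if_false] at h4
        rw [hww i (hB hi)] at h4
        cases h5 : w' i <;> simp [h5] at h4
      · intro hi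
        by_contra hi'
        have h4 := congrFun h3 i
        simp only [hi, hi', if_true, if_false] at h4
        rw [hww i (hB' hi)] at h4
        cases h5 : w' i <;> simp [h5] at h4
    subst hBB
    have : w = w' := by
      funext i
      have h4 := congrFun h3 i
      by_cases hi : i ∈ B
      · exact hww i (hB hi)
      · simpa [hi] using h4
    rw [this]
  have h := Finset.card_le_card_of_injOn _ (fun x _ => mem_univ _) hinj
  rw [card_product, card_powerset, hAc] at h
  simpa using h

/-- The points of `C` selected by `w`, counted by pairs. -/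
lemma card_inter_half {N : ℕ} (C : Finset (G N)) (w : Fin N → Bool) :
    (C ∩ half w).card = (univ.filter (fun i => (i, w i) ∈ C)).card := by
  classical
  apply Finset.card_bij (fun p _ => p.1)
  · intro p hp
    rw [mem_inter, mem_half] at hp
    rw [mem_filter, ← hp.2]
    exact ⟨mem_univ _, hp.1⟩
  · intro p hp p' hp' h
    rw [mem_inter, mem_half] at hp hp'
    apply Prod.ext h
    rw [hp.2, hp'.2, h]
  · intro i hi
    rw [mem_filter] at hi
    exact ⟨(i, w i), by rw [mem_inter, mem_half]; exact ⟨hi.2, rfl⟩, rfl⟩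

lemma card_inter_half_add {N : ℕ} (C : Finset (G N)) (w : Fin N → Bool) :
    (C ∩ half w).card + (C ∩ half (opp w)).card = C.card := by
  classical
  rw [← card_union_of_disjoint]
  · congr 1
    ext p
    simp only [mem_union, mem_inter, mem_half_opp]
    tauto
  · rw [disjoint_left]
    intro p hp hp'
    rw [mem_inter] at hp hp'
    exact mem_half_opp.1 hp'.2 hp.2

/-- The pairs with both points in `C`. -/
def dbl {N : ℕ} (C : Finset (G N)) : Finset (Fin N) :=
  univ.filter (fun i => (i, true) ∈ C ∧ (i, false) ∈ C)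

/-- The pairs with exactly one point in `C`. -/
def sgl {N : ℕ} (C : Finset (G N)) : Finset (Fin N) :=
  univ.filter (fun i => ((i, true) ∈ C ∧ (i, false) ∉ C) ∨ ((i, true) ∉ C ∧ (i, false) ∈ C))

/-- The side of the point of `C` in a pair. -/
def side {N : ℕ} (C : Finset (G N)) (i : Fin N) : Bool := decide ((i, true) ∈ C)

lemma mem_dbl {N : ℕ} {C : Finset (G N)} {i : Fin N} :
    i ∈ dbl C ↔ (i, true) ∈ C ∧ (i, false) ∈ C := by
  rw [dbl, mem_filter]; exact ⟨fun h => h.2, fun h => ⟨mem_univ _, h⟩⟩

lemma mem_sgl {N : ℕ} {C : Finset (G N)} {i : Fin N} :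
    i ∈ sgl C ↔ ((i, true) ∈ C ∧ (i, false) ∉ C) ∨ ((i, true) ∉ C ∧ (i, false) ∈ C) := by
  rw [sgl, mem_filter]; exact ⟨fun h => h.2, fun h => ⟨mem_univ _, h⟩⟩

lemma card_inter_half_eq {N : ℕ} (C : Finset (G N)) (w : Fin N → Bool) :
    (C ∩ half w).card = (dbl C).card + ((sgl C).filter (fun i => w i = side C i)).card := by
  classical
  rw [card_inter_half, ← card_union_of_disjoint]
  · congr 1
    ext i
    rw [mem_filter, mem_union, mem_filter, mem_dbl, mem_sgl, side]
    cases hw : w i
    · by_cases h1 : (i, true) ∈ C <;> by_cases h2 : (i, false) ∈ C <;> simp [h1, h2]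
    · by_cases h1 : (i, true) ∈ C <;> by_cases h2 : (i, false) ∈ C <;> simp [h1, h2]
  · rw [disjoint_left]
    intro i hi hi'
    rw [mem_filter, mem_sgl] at hi'
    rw [mem_dbl] at hi
    replace hi' := hi'.1
    rcases hi' with h | h
    · exact h.2 hi.2
    · exact h.1 hi.1

lemma card_eq_dbl_sgl {N : ℕ} (C : Finset (G N)) : C.card = 2 * (dbl C).card + (sgl C).card := by
  classical
  rw [← card_inter_half_add C (side C), card_inter_half_eq, card_inter_half_eq]
  have h1 : (sgl C).filter (fun i => side C i = side C i) = sgl C := by simp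
  have h2 : (sgl C).filter (fun i => opp (side C) i = side C i) = ∅ := by
    simp [opp]
  rw [h1, h2]
  simp
  ring

/-- Many words split `C` evenly and separate `x` and `y`. -/
lemma card_even_split {N m : ℕ} (C : Finset (G N)) (hC : C.card = 2 * m) (x y : G N) (hx : x ∈ C)
    (hy : y ∈ C) (hxy : x.1 ≠ y.1) :
    2 ^ N ≤ 4 * (N + 1) * (univ.filter (fun w : Fin N → Bool =>
      x ∈ half w ∧ y ∉ half w ∧ (C ∩ half w).card = m)).card := by
  classical
  set W := univ.filter (fun w : Fin N → Bool => x ∈ half w ∧ y ∉ half w ∧ (C ∩ half w).card = m)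
    with hW
  set S : Finset (Fin N) := ((sgl C).erase x.1).erase y.1 with hS
  set R : Finset (Fin N) := ((univ \ S).erase x.1).erase y.1 with hR
  set a : ℕ := if x.1 ∈ sgl C then 1 else 0 with ha
  set b : ℕ := if y.1 ∈ sgl C then 1 else 0 with hb
  have hcard := card_eq_dbl_sgl C
  have hSc : S.card + a + b = (sgl C).card := by
    have h1 : ((sgl C).erase x.1).card + a = (sgl C).card := by
      by_cases h : x.1 ∈ sgl C
      · simp only [ha, h, if_true]
        exact card_erase_add_one h
      · simp [ha, h]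
    have h2 : S.card + b = ((sgl C).erase x.1).card := by
      by_cases h : y.1 ∈ sgl C
      · simp only [hb, h, if_true, hS]
        exact card_erase_add_one (mem_erase.2 ⟨fun h' => hxy h'.symm, h⟩)
      · simp [hb, h, hS]
    omega
  have hxS : x.1 ∉ S := by simp [hS]
  have hyS : y.1 ∉ S := by simp [hS]
  have hRc : R.card + S.card + 2 = N := by
    have h1 : (univ \ S : Finset (Fin N)).card + S.card = N := by
      rw [card_sdiff_add_card_eq_card (subset_univ S)]; simp
    have h2 : ((univ \ S).erase x.1).card + 1 = (univ \ S : Finset (Fin N)).card :=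
      card_erase_add_one (by simp [hxS])
    have h3 : R.card + 1 = ((univ \ S).erase x.1).card :=
      card_erase_add_one (by rw [mem_erase]; exact ⟨fun h' => hxy h'.symm, by simp [hyS]⟩)
    omega
  -- the number of selected singles in `S`
  have hsg : ∃ k, (sgl C).card = 2 * k := ⟨m - (dbl C).card, by omega⟩
  obtain ⟨k₀, hk₀⟩ := hsg
  have hab : a ≤ k₀ := by
    by_cases h : x.1 ∈ sgl C
    · have : 0 < (sgl C).card := card_pos.2 ⟨_, h⟩
      simp only [ha, h, if_true]; omega
    · simp [ha, h]
  have ha1 : a ≤ 1 := by simp only [ha]; split_ifs <;> omega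
  have hb1 : b ≤ 1 := by simp only [hb]; split_ifs <;> omega
  set k := k₀ - a with hk
  have hmid : 2 ^ S.card ≤ (S.card + 1) * S.card.choose k := by
    apply two_pow_le_choose
    omega
  -- the word of a pair of sets
  set g : Finset (Fin N) × Finset (Fin N) → (Fin N → Bool) := fun UV i =>
    if i = x.1 then x.2 else if i = y.1 then ! y.2 else
      if i ∈ S then (if i ∈ UV.1 then side C i else ! side C i) else decide (i ∈ UV.2) with hg
  have hmaps : ∀ UV ∈ (powersetCard k S) ×ˢ R.powerset, g UV ∈ W := by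
    rintro ⟨U, V⟩ hUV
    rw [mem_product, mem_powersetCard, mem_powerset] at hUV
    obtain ⟨⟨hU, hUk⟩, hV⟩ := hUV
    have hgx : g (U, V) x.1 = x.2 := by simp [hg]
    have hgy : g (U, V) y.1 = ! y.2 := by simp [hg, Ne.symm hxy]
    have hgS : ∀ i ∈ S, (g (U, V) i = side C i ↔ i ∈ U) := by
      intro i hi
      have h1 : i ≠ x.1 := fun h => hxS (h ▸ hi)
      have h2 : i ≠ y.1 := fun h => hyS (h ▸ hi)
      by_cases h3 : i ∈ U <;> simp [hg, h1, h2, hi, h3]
    rw [hW, mem_filter]
    refine ⟨mem_univ _, ?_, ?_, ?_⟩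
    · rw [mem_half, hgx]
    · rw [mem_half, hgy]; cases y.2 <;> simp
    · rw [card_inter_half_eq]
      have h1 : ((sgl C).filter (fun i => g (U, V) i = side C i)).card = a + k := by
        have hsplit : (sgl C).filter (fun i => g (U, V) i = side C i) =
            (if x.1 ∈ sgl C then {x.1} else ∅) ∪ U := by
          ext i
          rw [mem_filter, mem_union]
          constructor
          · rintro ⟨hi, hi'⟩
            by_cases h1 : i = x.1
            · left; subst h1; simp [hi]
            · by_cases h2 : i = y.1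
              · exfalso
                subst h2
                rw [hgy] at hi'
                have hyy : (y.1, y.2) ∈ C := by simpa using hy
                have h3 := hi
                rw [mem_sgl] at h3
                cases h4 : y.2 <;> rw [h4] at hyy hi' <;>
                  · rcases h3 with h3 | h3 <;> simp [side, h3.1, h3.2] at hi' hyy
              · right
                have hiS : i ∈ S := by
                  rw [hS, mem_erase, mem_erase]; exact ⟨h2, h1, hi⟩
                exact (hgS i hiS).1 hi'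
          · rintro (hi | hi)
            · by_cases h1 : x.1 ∈ sgl C
              · simp only [h1, if_true, mem_singleton] at hi
                subst hi
                refine ⟨h1, ?_⟩
                rw [hgx]
                have hxx : (x.1, x.2) ∈ C := by simpa using hx
                have h3 := h1
                rw [mem_sgl] at h3
                cases h4 : x.2 <;> rw [h4] at hxx
                · rcases h3 with h3 | h3
                  · exact absurd hxx h3.2
                  · simp [side, h3.1]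
                · simp [side, hxx]
              · simp [h1] at hi
            · have hiS := hU hi
              refine ⟨?_, (hgS i hiS).2 hi⟩
              rw [hS, mem_erase, mem_erase] at hiS
              exact hiS.2.2
        rw [hsplit, card_union_of_disjoint, hUk]
        · by_cases h1 : x.1 ∈ sgl C <;> simp [ha, h1]
        · rw [disjoint_left]
          intro i hi hi'
          by_cases h1 : x.1 ∈ sgl C
          · simp only [h1, if_true, mem_singleton] at hi
            subst hi
            exact hxS (hU hi')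
          · simp [h1] at hi
      rw [h1]
      omega
  have hinj : Set.InjOn g ((powersetCard k S) ×ˢ R.powerset : Finset _) := by
    rintro ⟨U, V⟩ h1 ⟨U', V'⟩ h2 h3
    simp only [coe_product, Set.mem_prod, mem_coe, mem_powersetCard, mem_powerset] at h1 h2
    obtain ⟨⟨hU, -⟩, hV⟩ := h1
    obtain ⟨⟨hU', -⟩, hV'⟩ := h2
    have hUU : U = U' := by
      ext i
      by_cases hi : i ∈ S
      · have h1 : i ≠ x.1 := fun h => hxS (h ▸ hi)
        have h2 : i ≠ y.1 := fun h => hyS (h ▸ hi)
        have h4 := congrFun h3 i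
        simp only [hg, h1, h2, hi, if_true, if_false] at h4
        by_cases h5 : i ∈ U <;> by_cases h6 : i ∈ U' <;> simp [h5, h6] at h4 ⊢
      · exact ⟨fun h => absurd (hU h) hi, fun h => absurd (hU' h) hi⟩
    have hVV : V = V' := by
      ext i
      by_cases hi : i ∈ R
      · have hi' := hi
        rw [hR, mem_erase, mem_erase, mem_sdiff] at hi'
        obtain ⟨h2, h1, -, h0⟩ := hi'
        have h4 := congrFun h3 i
        simp only [hg, h1, h2, h0, if_false] at h4
        simpa using h4
      · exact ⟨fun h => absurd (hV h) hi, fun h => absurd (hV' h) hi⟩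
    rw [hUU, hVV]
  have hle := Finset.card_le_card_of_injOn g hmaps hinj
  rw [card_product, card_powersetCard, card_powerset] at hle
  have hpow : 2 ^ N = 4 * (2 ^ R.card * 2 ^ S.card) := by
    have h5 : (2 : ℕ) ^ (R.card + S.card + 2) = 4 * (2 ^ R.card * 2 ^ S.card) := by
      rw [pow_add, pow_add]; ring
    rw [← h5, hRc]
  have hSN : S.card + 1 ≤ N + 1 := by omega
  calc 2 ^ N = 4 * (2 ^ R.card * 2 ^ S.card) := hpow
    _ ≤ 4 * (2 ^ R.card * ((S.card + 1) * S.card.choose k)) := by gcongr
    _ ≤ 4 * (2 ^ R.card * ((N + 1) * S.card.choose k)) :=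
        Nat.mul_le_mul_left _ (Nat.mul_le_mul_left _ (Nat.mul_le_mul_right _ hSN))
    _ = 4 * (N + 1) * (S.card.choose k * 2 ^ R.card) := by ring
    _ ≤ 4 * (N + 1) * W.card := by gcongr

/-- The points outside a cube lie in different pairs. -/
lemma fst_inj_of_cube {N : ℕ} (S : Finset (Trial N)) (Z : Finset (G N)) (hZ : Z ∈ allCubes S)
    (p p' : G N) (hp : p ∉ Z) (hp' : p' ∉ Z) (h : p.1 = p'.1) : p = p' := by
  simp only [allCubes, mem_biUnion, cubes, mem_insert, mem_singleton] at hZ
  obtain ⟨t, -, h1 | h1⟩ := hZ <;> subst h1 <;> rw [mem_cube, not_or] at hp hp' <;>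
    · apply Prod.ext h
      have h2 := hp.2
      have h3 := hp'.2
      rw [← h] at h3
      revert h2 h3
      cases p.2 <;> cases p'.2 <;> simp

/-- Two points that decide everything. -/
lemma exists_xy {N q : ℕ} (hN : 40 ≤ N) (S : Finset (Trial N)) (C : Finset (G N))
    (hC : Reg q (allCubes S) C) :
    ∃ x ∈ C, ∃ y ∈ C, x.1 ≠ y.1 ∧
      ∀ Z ∈ allCubes S, (x ∉ Z ∧ y ∉ Z) ∨ q ≤ (C \ Z).card := by
  classical
  obtain ⟨h1, -, h3, h4⟩ := hC
  by_cases h : ∃ Z ∈ allCubes S, (C \ Z).card < q
  · obtain ⟨Z, hZ, hlt⟩ := h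
    have h2 := h3 Z hZ
    obtain ⟨x, hx, y, hy, hxy⟩ := Finset.one_lt_card.1 (show 1 < (C \ Z).card by omega)
    rw [mem_sdiff] at hx hy
    refine ⟨x, hx.1, y, hy.1, fun h => hxy (fst_inj_of_cube S Z hZ x y hx.2 hy.2 h), ?_⟩
    intro Z' hZ'
    by_cases hZZ : Z = Z'
    · subst hZZ; exact Or.inl ⟨hx.2, hy.2⟩
    · rcases h4 Z hZ Z' hZ' hZZ with h5 | h5
      · omega
      · exact Or.inr h5
  · push Not at h
    have hne : 2 < C.card := by omega
    obtain ⟨x, hx⟩ := Finset.card_pos.1 (show 0 < C.card by omega)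
    have : ∃ y ∈ C, y.1 ≠ x.1 := by
      by_contra hcon
      push Not at hcon
      have hsub : C ⊆ {(x.1, true), (x.1, false)} := by
        intro p hp
        have h5 := hcon p hp
        rw [mem_insert, mem_singleton]
        rcases p with ⟨p1, p2⟩
        simp only at h5
        subst h5
        cases p2 <;> simp
      have := (card_le_card hsub).trans (card_le_two)
      omega
    obtain ⟨y, hy, hyx⟩ := this
    exact ⟨x, hx, y, hy, fun h => hyx h.symm, fun Z hZ => Or.inr (h Z hZ)⟩

lemma card_inter_cube {N : ℕ} (C : Finset (G N)) (w : Fin N → Bool) (h : G N) :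
    (C ∩ cube w h).card = (C.erase h ∩ half w).card + if h ∈ C then 1 else 0 := by
  classical
  by_cases hh : h ∈ C
  · rw [if_pos hh]
    have : C ∩ cube w h = insert h (C.erase h ∩ half w) := by
      ext p
      simp only [mem_inter, mem_insert, mem_erase, mem_cube, mem_half]
      constructor
      · rintro ⟨h1, h2⟩
        by_cases h3 : p = h
        · exact Or.inl h3
        · exact Or.inr ⟨⟨h3, h1⟩, h2.resolve_left h3⟩
      · rintro (h1 | h1)
        · subst h1; exact ⟨hh, Or.inl rfl⟩
        · exact ⟨h1.1.2, Or.inr h1.2⟩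
    rw [this, card_insert_of_notMem (by simp)]
  · rw [if_neg hh, add_zero, erase_eq_of_notMem hh]
    congr 1
    ext p
    simp only [mem_inter, mem_cube, mem_half]
    constructor
    · rintro ⟨h1, h2⟩
      exact ⟨h1, h2.resolve_left fun h3 => hh (h3 ▸ h1)⟩
    · rintro ⟨h1, h2⟩
      exact ⟨h1, Or.inr h2⟩

/-- For one point `h`. -/
lemma count_one {N q m : ℕ} (S : Finset (Trial N)) (C : Finset (G N))
    (hq : 1280 * (N + 1) * (allCubes S).card ≤ 2 ^ q) (x y : G N) (hx : x ∈ C) (hy : y ∈ C)
    (hxy : x.1 ≠ y.1)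
    (hZ : ∀ Z ∈ allCubes S, (x ∉ Z ∧ y ∉ Z) ∨ q ≤ (C \ Z).card) (h : G N) (hxh : x ≠ h)
    (hyh : y ≠ h) (hm : (C.erase h).card = 2 * m) (hl : lev C = m + if h ∈ C then 1 else 0) :
    2 ^ N ≤ 8 * (N + 1) *
      (univ.filter (fun w : Fin N → Bool => Cov (allCubes S) (w, h) C)).card := by
  classical
  set c := (univ.filter (fun w : Fin N → Bool => Cov (allCubes S) (w, h) C)).card with hc
  have hgood := card_even_split (C.erase h) hm x y (mem_erase.2 ⟨hxh, hx⟩) (mem_erase.2 ⟨hyh, hy⟩)
    hxy
  -- the bad words of a far cube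
  set F := (allCubes S).filter (fun Z => q ≤ (C \ Z).card) with hF
  set B1 : Finset (G N) → Finset (Fin N → Bool) := fun Z =>
    univ.filter (fun w : Fin N → Bool => ∀ p ∈ C \ Z, w p.1 = ! p.2) with hB1
  set B2 : Finset (G N) → Finset (Fin N → Bool) := fun Z =>
    univ.filter (fun w : Fin N → Bool => ∀ p ∈ C \ Z, w p.1 = p.2) with hB2
  have hbad : ∀ Z ∈ F, (B1 Z ∪ B2 Z).card * 2 ^ q ≤ 2 * 2 ^ N := by
    intro Z hZF
    rw [hF, mem_filter] at hZF
    have hinj : ∀ p ∈ C \ Z, ∀ p' ∈ C \ Z, p.1 = p'.1 → p = p' := by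
      intro p hp p' hp' hpp
      rw [mem_sdiff] at hp hp'
      exact fst_inj_of_cube S Z hZF.1 p p' hp.2 hp'.2 hpp
    have h1 := card_prescribed (C \ Z) hinj (fun p => ! p.2)
    have h2 := card_prescribed (C \ Z) hinj (fun p => p.2)
    have hpow : 2 ^ q ≤ 2 ^ (C \ Z).card := Nat.pow_le_pow_right (by norm_num) hZF.2
    calc (B1 Z ∪ B2 Z).card * 2 ^ q ≤ ((B1 Z).card + (B2 Z).card) * 2 ^ (C \ Z).card :=
          Nat.mul_le_mul (card_union_le _ _) hpow
      _ = (B1 Z).card * 2 ^ (C \ Z).card + (B2 Z).card * 2 ^ (C \ Z).card := by ring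
      _ ≤ 2 ^ N + 2 ^ N := Nat.add_le_add h1 h2
      _ = 2 * 2 ^ N := by ring
  have hsub : univ.filter (fun w : Fin N → Bool =>
      x ∈ half w ∧ y ∉ half w ∧ (C.erase h ∩ half w).card = m) ⊆
      (univ.filter (fun w : Fin N → Bool => Cov (allCubes S) (w, h) C)) ∪
        F.biUnion (fun Z => B1 Z ∪ B2 Z) := by
    intro w hw
    rw [mem_filter] at hw
    obtain ⟨-, hwx, hwy, hwm⟩ := hw
    rw [mem_union]
    by_cases hcov : Cov (allCubes S) (w, h) C
    · left; simpa using hcov
    · right
      rw [mem_biUnion]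
      have hwm' : (C.erase h ∩ half (opp w)).card = m := by
        have := card_inter_half_add (C.erase h) w
        omega
      have hc1 : (C ∩ cube w h).card = lev C := by rw [card_inter_cube, hwm, hl]
      have hc2 : (C ∩ cube (opp w) h).card = lev C := by rw [card_inter_cube, hwm', hl]
      have hex : ∃ Z ∈ allCubes S, C ∩ cube w h ⊆ Z ∨ C ∩ cube (opp w) h ⊆ Z := by
        by_contra hcon
        push Not at hcon
        exact hcov ⟨hc1, hc2, fun Z hZ' => hcon Z hZ'⟩
      obtain ⟨Z, hZS, hZ'⟩ := hex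
      have hxc : x ∈ C ∩ cube w h := mem_inter.2 ⟨hx, half_subset_cube _ _ hwx⟩
      have hyc : y ∈ C ∩ cube (opp w) h :=
        mem_inter.2 ⟨hy, half_subset_cube _ _ (mem_half_opp.2 hwy)⟩
      rcases hZ Z hZS with hnear | hfar
      · exfalso
        rcases hZ' with h5 | h5
        · exact hnear.1 (h5 hxc)
        · exact hnear.2 (h5 hyc)
      · refine ⟨Z, mem_filter.2 ⟨hZS, hfar⟩, ?_⟩
        rw [mem_union]
        rcases hZ' with h5 | h5
        · left
          rw [hB1]
          simp only [mem_filter, mem_univ, true_and]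
          intro p hp
          rw [mem_sdiff] at hp
          have h6 : p ∉ half w := fun h7 =>
            hp.2 (h5 (mem_inter.2 ⟨hp.1, half_subset_cube _ _ h7⟩))
          rw [mem_half] at h6
          revert h6
          cases p.2 <;> cases w p.1 <;> simp
        · right
          rw [hB2]
          simp only [mem_filter, mem_univ, true_and]
          intro p hp
          rw [mem_sdiff] at hp
          have h6 : p ∉ half (opp w) := fun h7 =>
            hp.2 (h5 (mem_inter.2 ⟨hp.1, half_subset_cube _ _ h7⟩))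
          rw [mem_half_opp, not_not, mem_half] at h6
          exact h6.symm
  have hcardle := card_le_card hsub
  have hb : (F.biUnion (fun Z => B1 Z ∪ B2 Z)).card * 2 ^ q ≤ (allCubes S).card * (2 * 2 ^ N) := by
    calc (F.biUnion (fun Z => B1 Z ∪ B2 Z)).card * 2 ^ q
        ≤ (∑ Z ∈ F, (B1 Z ∪ B2 Z).card) * 2 ^ q := by gcongr; exact card_biUnion_le
      _ = ∑ Z ∈ F, (B1 Z ∪ B2 Z).card * 2 ^ q := by rw [sum_mul]
      _ ≤ ∑ _Z ∈ F, 2 * 2 ^ N := sum_le_sum hbad
      _ = F.card * (2 * 2 ^ N) := by simp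
      _ ≤ (allCubes S).card * (2 * 2 ^ N) := by gcongr; exact filter_subset _ _
  set b := (F.biUnion (fun Z => B1 Z ∪ B2 Z)).card with hbdef
  set g := (univ.filter (fun w : Fin N → Bool =>
      x ∈ half w ∧ y ∉ half w ∧ (C.erase h ∩ half w).card = m)).card with hgdef
  have hgle : g ≤ c + b := hcardle.trans (card_union_le _ _)
  have hQ : 0 < 2 ^ q := by positivity
  -- arithmetic
  have e1 : 2 ^ N * 2 ^ q ≤ 4 * (N + 1) * c * 2 ^ q + 4 * (N + 1) * (b * 2 ^ q) := by
    calc 2 ^ N * 2 ^ q ≤ (4 * (N + 1) * g) * 2 ^ q := Nat.mul_le_mul_right _ hgood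
      _ ≤ (4 * (N + 1) * (c + b)) * 2 ^ q := by gcongr
      _ = 4 * (N + 1) * c * 2 ^ q + 4 * (N + 1) * (b * 2 ^ q) := by ring
  have e2 : 160 * (4 * (N + 1) * (b * 2 ^ q)) ≤ 2 ^ q * 2 ^ N := by
    calc 160 * (4 * (N + 1) * (b * 2 ^ q)) ≤
          160 * (4 * (N + 1) * ((allCubes S).card * (2 * 2 ^ N))) := by gcongr
      _ = (1280 * (N + 1) * (allCubes S).card) * 2 ^ N := by ring
      _ ≤ 2 ^ q * 2 ^ N := by gcongr
  have e3 : 2 ^ N * 2 ^ q ≤ (8 * (N + 1) * c) * 2 ^ q := by
    have e4 : 2 ^ q * 2 ^ N = 2 ^ N * 2 ^ q := mul_comm _ _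
    rw [e4] at e2
    have e5 : (8 * (N + 1) * c) * 2 ^ q = 2 * (4 * (N + 1) * c * 2 ^ q) := by ring
    rw [e5]
    generalize 4 * (N + 1) * c * 2 ^ q = A at *
    generalize 4 * (N + 1) * (b * 2 ^ q) = B at *
    generalize 2 ^ N * 2 ^ q = P at *
    omega
  exact Nat.le_of_mul_le_mul_right e3 hQ

/-- Module U2. Many trials split a regular set well. -/
theorem cov_count {N q : ℕ} (hN : 40 ≤ N) (S : Finset (Trial N)) (C : Finset (G N))
    (hq : 1280 * (N + 1) * (allCubes S).card ≤ 2 ^ q) (hC : Reg q (allCubes S) C) :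
    2 * N * 2 ^ N ≤
      320 * (N + 1) * (univ.filter (fun t : Trial N => Cov (allCubes S) t C)).card := by
  classical
  obtain ⟨x, hx, y, hy, hxy, hZ⟩ := exists_xy hN S C hC
  have hxney : x ≠ y := fun h => hxy (by rw [h])
  have h10 := hC.1
  have h19 := hC.2.1
  -- the good points
  obtain ⟨H, m, hHN, hH⟩ : ∃ (H : Finset (G N)) (m : ℕ), N ≤ 20 * H.card ∧
      ∀ h ∈ H, x ≠ h ∧ y ≠ h ∧ (C.erase h).card = 2 * m ∧
        lev C = m + if h ∈ C then 1 else 0 := by
    rcases Nat.even_or_odd C.card with he | ho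
    · obtain ⟨m, hm⟩ := he
      refine ⟨univ \ C, m, ?_, ?_⟩
      · have h1 : (univ \ C : Finset (G N)).card + C.card = 2 * N := by
          rw [card_sdiff_add_card_eq_card (subset_univ C)]
          simp [Fintype.card_prod]
          ring
        omega
      · intro h hh
        rw [mem_sdiff] at hh
        refine ⟨fun h1 => hh.2 (h1 ▸ hx), fun h1 => hh.2 (h1 ▸ hy), ?_, ?_⟩
        · rw [erase_eq_of_notMem hh.2]; omega
        · rw [if_neg hh.2, lev]; omega
    · obtain ⟨m, hm⟩ := ho
      refine ⟨(C.erase x).erase y, m, ?_, ?_⟩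
      · have h1 : (C.erase x).card + 1 = C.card := card_erase_add_one hx
        have h2 : ((C.erase x).erase y).card + 1 = (C.erase x).card :=
          card_erase_add_one (mem_erase.2 ⟨fun h => hxney h.symm, hy⟩)
        omega
      · intro h hh
        rw [mem_erase, mem_erase] at hh
        refine ⟨fun h1 => hh.2.1 h1.symm, fun h1 => hh.1 h1.symm, ?_, ?_⟩
        · have := card_erase_add_one hh.2.2
          omega
        · rw [if_pos hh.2.2, lev]; omega
  have hper : ∀ h ∈ H, 2 ^ N ≤ 8 * (N + 1) *
      (univ.filter (fun w : Fin N → Bool => Cov (allCubes S) (w, h) C)).card := by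
    intro h hh
    obtain ⟨h1, h2, h3, h4⟩ := hH h hh
    exact count_one S C hq x y hx hy hxy hZ h h1 h2 h3 h4
  have hsum : ∑ h ∈ H, (univ.filter (fun w : Fin N → Bool => Cov (allCubes S) (w, h) C)).card ≤
      (univ.filter (fun t : Trial N => Cov (allCubes S) t C)).card := by
    rw [← Finset.card_sigma]
    apply Finset.card_le_card_of_injOn (fun s : (_ : G N) × (Fin N → Bool) => (s.2, s.1))
    · rintro ⟨h, w⟩ hs
      rw [mem_coe, mem_sigma, mem_filter] at hs
      rw [mem_coe, mem_filter]
      exact ⟨mem_univ _, hs.2.2⟩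
    · rintro ⟨h, w⟩ - ⟨h', w'⟩ - h3
      simp only [Prod.mk.injEq] at h3
      obtain ⟨h4, h5⟩ := h3
      subst h4; subst h5; rfl
  have htot : H.card * 2 ^ N ≤
      8 * (N + 1) * (univ.filter (fun t : Trial N => Cov (allCubes S) t C)).card := by
    calc H.card * 2 ^ N = ∑ _h ∈ H, 2 ^ N := by simp
      _ ≤ ∑ h ∈ H, 8 * (N + 1) *
          (univ.filter (fun w : Fin N → Bool => Cov (allCubes S) (w, h) C)).card :=
          sum_le_sum hper
      _ = 8 * (N + 1) * ∑ h ∈ H,
          (univ.filter (fun w : Fin N → Bool => Cov (allCubes S) (w, h) C)).card := by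
          rw [mul_sum]
      _ ≤ _ := by gcongr
  calc 2 * N * 2 ^ N ≤ 2 * (20 * H.card) * 2 ^ N := by gcongr
    _ = 40 * (H.card * 2 ^ N) := by ring
    _ ≤ 40 * (8 * (N + 1) * (univ.filter (fun t : Trial N => Cov (allCubes S) t C)).card) := by
        gcongr
    _ = 320 * (N + 1) * (univ.filter (fun t : Trial N => Cov (allCubes S) t C)).card := by ring

end Pool.Agent.Lib.MP_e9f532_co.Dfc
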