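import Mathlib

set_option autoImplicit false

/-!
Kruskal-Katona in LYM form inside a cube of dimension `z`, and the consequences for the down-closure
of an antichain.
-/

namespace Pool.Agent.Lib.MP_e9f532_co.Dfc

open Finset Finset.Colex
open scoped FinsetFamily

/-- The local LYM inequality for a family of subsets of `W`. -/
lemma local_lym_in {n r : ℕ} (W : Finset (Fin n)) (A : Finset (Finset (Fin n)))
    (hA : (A : Set (Finset (Fin n))).Sized (r + 1)) (hW : ∀ a ∈ A, a ⊆ W) :
    A.card * (r + 1) ≤ (∂ A).card * (W.card - r) := by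
  classical
  refine card_mul_le_card_mul' (· ⊆ ·) (fun s hs => ?_) (fun s hs => ?_)
  · rw [← hA hs, ← card_image_of_injOn s.erase_injOn]
    refine card_le_card ?_
    simp_rw [image_subset_iff, mem_bipartiteBelow]
    exact fun a ha => ⟨erase_mem_shadow hs ha, erase_subset _ _⟩
  · have hsr : s.card = r := by
      have := (Set.Sized.shadow hA) hs
      simpa using this
    have hsW : s ⊆ W := by
      obtain ⟨t, ht, a, ha, rfl⟩ := mem_shadow_iff.1 hs
      exact (erase_subset _ _).trans (hW t ht)
    have h1 : (W \ s).card = W.card - r := by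
      rw [card_sdiff_of_subset hsW, hsr]
    rw [← h1, ← card_image_of_injOn (s := W \ s) (f := fun a => insert a s)]
    · refine card_le_card fun t ht => ?_
      rw [mem_bipartiteAbove] at ht
      obtain ⟨htA, hst⟩ := ht
      have htc : t.card = r + 1 := hA htA
      have h2 : (t \ s).card = 1 := by
        rw [card_sdiff_of_subset hst, htc, hsr]; omega
      obtain ⟨a, ha⟩ := card_eq_one.1 h2
      have ha1 : a ∈ t \ s := by rw [ha]; exact mem_singleton_self a
      rw [mem_sdiff] at ha1
      rw [mem_image]
      refine ⟨a, ?_, ?_⟩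
      · rw [mem_sdiff]; exact ⟨hW t htA ha1.1, ha1.2⟩
      · rw [← sdiff_union_of_subset hst, ha]; rfl
    · intro a ha b hb hab
      simp only [coe_sdiff, Set.mem_diff, mem_coe] at ha hb
      simp only at hab
      by_contra hne
      have : a ∈ insert b s := by rw [← hab]; exact mem_insert_self a s
      rw [mem_insert] at this
      rcases this with h | h
      · exact hne h
      · exact ha.2 h

lemma exists_initSeg_card {n r : ℕ} (m : ℕ) (hm : m ≤ n.choose r) :
    ∃ C : Finset (Finset (Fin n)), IsInitSeg C r ∧ C.card = m := by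
  classical
  induction m with
  | zero => exact ⟨∅, isInitSeg_empty, card_empty⟩
  | succ m ih =>
    obtain ⟨C, hC, hCm⟩ := ih (by omega)
    have hCsub : C ⊆ powersetCard r (univ : Finset (Fin n)) := by
      intro t ht
      rw [mem_powersetCard]
      exact ⟨subset_univ _, hC.1 ht⟩
    have hne : ((powersetCard r (univ : Finset (Fin n))) \ C).Nonempty := by
      rw [← card_pos, card_sdiff_of_subset hCsub, card_powersetCard, card_univ, Fintype.card_fin]
      omega
    obtain ⟨s, hs, hmin⟩ := exists_min_image _ (fun t => toColex t) hne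
    rw [mem_sdiff, mem_powersetCard] at hs
    refine ⟨insert s C, ⟨?_, ?_⟩, ?_⟩
    · intro t ht
      rw [coe_insert, Set.mem_insert_iff] at ht
      rcases ht with rfl | ht
      · exact hs.1.2
      · exact hC.1 ht
    · intro a t ha hta
      rw [mem_insert] at ha
      by_contra hcon
      rw [mem_insert, not_or] at hcon
      rcases ha with rfl | ha
      · have h1 : t ∈ (powersetCard r (univ : Finset (Fin n))) \ C := by
          rw [mem_sdiff, mem_powersetCard]
          exact ⟨⟨subset_univ _, hta.2⟩, hcon.2⟩
        have h2 := hmin t h1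
        exact absurd hta.1 (not_lt.2 h2)
      · exact hcon.2 (hC.2 ha hta)
    · rw [card_insert_of_notMem hs.2, hCm]

lemma isInitSeg_range {n z r : ℕ} (hzn : z ≤ n) :
    IsInitSeg (powersetCard r ((univ : Finset (Fin n)).filter (fun i : Fin n => (i : ℕ) < z))) r := by
  refine ⟨Set.sized_powersetCard _ _, ?_⟩
  intro A B hA hB
  rw [mem_powersetCard] at hA ⊢
  refine ⟨fun t ht => ?_, hB.2⟩
  rw [mem_filter]
  refine ⟨mem_univ _, ?_⟩
  have h1 : toColex (image Fin.val B) < toColex (image Fin.val A) := by
    rw [toColex_image_lt_toColex_image Fin.val_strictMono]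
    exact hB.1
  refine Colex.forall_lt_mono (a := z) h1.le ?_ (t : ℕ) (mem_image.2 ⟨t, ht, rfl⟩)
  intro b hb
  obtain ⟨a, ha, rfl⟩ := mem_image.1 hb
  have := hA.1 ha
  rw [mem_filter] at this
  exact this.2

lemma card_filter_lt {n z : ℕ} (hzn : z ≤ n) :
    ((univ : Finset (Fin n)).filter (fun i : Fin n => (i : ℕ) < z)).card = z := by
  have : ((univ : Finset (Fin n)).filter (fun i : Fin n => (i : ℕ) < z)) =
      (univ : Finset (Fin z)).map (Fin.castLEEmb hzn) := by
    ext i
    simp only [mem_filter, mem_univ, true_and, mem_map, Fin.castLEEmb_apply]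
    constructor
    · intro hi
      exact ⟨⟨i, hi⟩, by ext; rfl⟩
    · rintro ⟨j, rfl⟩
      simp
  rw [this, card_map, card_univ, Fintype.card_fin]

/-- Kruskal-Katona in LYM form: a family of at most `z.choose (r+1)` sets of size `r+1`. -/
lemma kk_lym {n z r : ℕ} (hzn : z ≤ n) (A : Finset (Finset (Fin n)))
    (hA : (A : Set (Finset (Fin n))).Sized (r + 1)) (hcard : A.card ≤ z.choose (r + 1)) :
    A.card * z.choose r ≤ (∂ A).card * z.choose (r + 1) := by
  classical
  have hle : A.card ≤ n.choose (r + 1) := hcard.trans (Nat.choose_le_choose _ hzn)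
  obtain ⟨C, hC, hCm⟩ := exists_initSeg_card (n := n) (r := r + 1) A.card hle
  set W := (univ : Finset (Fin n)).filter (fun i : Fin n => (i : ℕ) < z) with hW
  have hWc : W.card = z := card_filter_lt hzn
  have hCW : C ⊆ powersetCard (r + 1) W := by
    rcases hC.total (isInitSeg_range (r := r + 1) hzn) with h | h
    · exact h
    · have h1 : (powersetCard (r + 1) W).card = z.choose (r + 1) := by
        rw [card_powersetCard, hWc]
      have h2 := eq_of_subset_of_card_le h (by
        show C.card ≤ (powersetCard (r + 1) W).card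
        rw [h1, hCm]; exact hcard)
      exact h2.ge
  have h1 := local_lym_in W C hC.1 (fun a ha => (mem_powersetCard.1 (hCW ha)).1)
  rw [hWc, hCm] at h1
  have h2 : (∂ C).card ≤ (∂ A).card := kruskal_katona hA hCm.le hC
  have h3 := Nat.choose_succ_right_eq z r
  have h4 : (A.card * z.choose r) * (r + 1) ≤ ((∂ A).card * z.choose (r + 1)) * (r + 1) := by
    calc (A.card * z.choose r) * (r + 1) = (A.card * (r + 1)) * z.choose r := by ring
      _ ≤ ((∂ C).card * (z - r)) * z.choose r := Nat.mul_le_mul_right _ h1
      _ ≤ ((∂ A).card * (z - r)) * z.choose r :=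
          Nat.mul_le_mul_right _ (Nat.mul_le_mul_right _ h2)
      _ = (∂ A).card * (z.choose r * (z - r)) := by ring
      _ = (∂ A).card * (z.choose (r + 1) * (r + 1)) := by rw [h3]
      _ = ((∂ A).card * z.choose (r + 1)) * (r + 1) := by ring
  exact Nat.le_of_mul_le_mul_right h4 (Nat.succ_pos r)

/-- The real form for families of any size. -/
lemma shadow_ge {n z r : ℕ} (hzn : z ≤ n) (hr : r + 1 ≤ z) (F : ℝ) (hF : F ≤ 1)
    (A : Finset (Finset (Fin n)))
    (hA : (A : Set (Finset (Fin n))).Sized (r + 1)) (hcard : F * z.choose (r + 1) ≤ A.card) :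
    F * z.choose r ≤ (∂ A).card := by
  classical
  have hpos : (0 : ℝ) < z.choose (r + 1) := by exact_mod_cast Nat.choose_pos hr
  have hpos' : (0 : ℝ) < z.choose r := by exact_mod_cast Nat.choose_pos (by omega : r ≤ z)
  rcases le_total A.card (z.choose (r + 1)) with h | h
  · have h1 := kk_lym hzn A hA h
    have h2 : (A.card : ℝ) * z.choose r ≤ (∂ A).card * z.choose (r + 1) := by exact_mod_cast h1
    have h3 : (F * z.choose r) * z.choose (r + 1) ≤ (∂ A).card * z.choose (r + 1) := by
      calc (F * z.choose r) * z.choose (r + 1) = (F * z.choose (r + 1)) * z.choose r := by ring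
        _ ≤ A.card * z.choose r := mul_le_mul_of_nonneg_right hcard hpos'.le
        _ ≤ _ := h2
    exact le_of_mul_le_mul_right h3 hpos
  · obtain ⟨B, hBA, hB⟩ := exists_subset_card_eq h
    have hBs : (B : Set (Finset (Fin n))).Sized (r + 1) := fun b hb => hA (hBA hb)
    have h1 := kk_lym hzn B hBs hB.le
    rw [hB] at h1
    have h2 : z.choose r ≤ (∂ B).card := by
      rw [mul_comm] at h1
      exact Nat.le_of_mul_le_mul_right h1 (Nat.choose_pos hr)
    have h3 : (∂ B).card ≤ (∂ A).card := card_le_card (shadow_monotone hBA)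
    have h4 : ((z.choose r : ℕ) : ℝ) ≤ ((∂ A).card : ℝ) := by exact_mod_cast h2.trans h3
    calc F * z.choose r ≤ 1 * z.choose r := mul_le_mul_of_nonneg_right hF hpos'.le
      _ = z.choose r := one_mul _
      _ ≤ _ := h4

end Pool.Agent.Lib.MP_e9f532_co.Dfc
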