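import Mathlib
import Pool.Agent.Lib.MP_e9f532_co.Dfc.Shadow

set_option autoImplicit false

/-!
The down-closure of an antichain with `m_j` members of size `j ≥ s` has at least
`4^s · ∑_{j ≥ s} m_j / C(2s+1, j)` members, if it has fewer than `4^s` members.
-/

namespace Pool.Agent.Lib.MP_e9f532_co.Dfc

open Finset
open scoped FinsetFamily

/-- The down-closure of a family. -/
def down {n : ℕ} (M : Finset (Finset (Fin n))) : Finset (Finset (Fin n)) :=
  univ.filter (fun P => ∃ Q ∈ M, P ⊆ Q)

lemma sum_falling_le {n : ℕ} (M : Finset (Finset (Fin n))) (K : ℕ) :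
    ∑ k ∈ range K, (falling k M).card ≤ (down M).card := by
  classical
  rw [← card_biUnion]
  · apply card_le_card
    intro P hP
    rw [mem_biUnion] at hP
    obtain ⟨k, _, hP⟩ := hP
    rw [mem_falling] at hP
    rw [down, mem_filter]
    obtain ⟨⟨Q, hQ, hPQ⟩, _⟩ := hP
    exact ⟨mem_univ _, Q, hQ, hPQ⟩
  · intro i _ j _ hij
    show Disjoint (falling i M) (falling j M)
    rw [Finset.disjoint_left]
    intro P hP hP'
    rw [mem_falling] at hP hP'
    exact hij (hP.2.symm.trans hP'.2)

lemma falling_step {n z : ℕ} (hzn : z ≤ n) (M : Finset (Finset (Fin n))) (F : ℝ) (hF : F ≤ 1)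
    (i : ℕ) (hi : i ≤ z) (h : F * z.choose i ≤ (falling i M).card) :
    ∀ j, j ≤ i → F * z.choose j ≤ (falling j M).card := by
  intro j hj
  induction i with
  | zero =>
    obtain rfl : j = 0 := by omega
    exact h
  | succ i ih =>
    rcases Nat.lt_or_ge j (i + 1) with hlt | hge
    · apply ih (by omega) ?_ (by omega)
      have h1 := shadow_ge hzn hi F hF (falling (i + 1) M) (sized_falling _ _) h
      have h2 : ∂ (falling (i + 1) M) ⊆ falling i M := by
        rw [← slice_union_shadow_falling_succ i M]
        exact subset_union_right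
      have h3 : ((∂ (falling (i + 1) M)).card : ℝ) ≤ (falling i M).card := by
        exact_mod_cast card_le_card h2
      exact h1.trans h3
    · obtain rfl : j = i + 1 := by omega
      exact h

lemma falling_le {n s : ℕ} (hz : 2 * s + 1 ≤ n) (M : Finset (Finset (Fin n)))
    (hD : (down M).card < 4 ^ s) (i : ℕ) (hi : s ≤ i) (hiz : i ≤ 2 * s + 1) :
    (falling i M).card ≤ (2 * s + 1).choose i := by
  by_contra hcon
  push Not at hcon
  have h1 := falling_step hz M 1 le_rfl i hiz (by
    rw [one_mul]; exact_mod_cast hcon.le)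
  have h2 : ∑ k ∈ range (s + 1), (2 * s + 1).choose k ≤
      ∑ k ∈ range (s + 1), (falling k M).card := by
    apply sum_le_sum
    intro k hk
    have := h1 k (by rw [mem_range] at hk; omega)
    rw [one_mul] at this
    exact_mod_cast this
  rw [Nat.sum_range_choose_halfway] at h2
  have h3 := sum_falling_le M (s + 1)
  omega

lemma card_le_of_down {n s : ℕ} (M : Finset (Finset (Fin n)))
    (hD : (down M).card < 4 ^ s) (P : Finset (Fin n)) (hP : P ∈ M) : P.card ≤ 2 * s := by
  by_contra hcon
  push Not at hcon
  have h1 : P.powerset ⊆ down M := by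
    intro R hR
    rw [mem_powerset] at hR
    rw [down, mem_filter]
    exact ⟨mem_univ _, P, hP, hR⟩
  have h2 := card_le_card h1
  rw [card_powerset] at h2
  have h3 : 4 ^ s ≤ 2 ^ P.card := by
    calc 4 ^ s = 2 ^ (2 * s) := by rw [pow_mul]; norm_num
      _ ≤ 2 ^ P.card := Nat.pow_le_pow_right (by norm_num) (by omega)
  omega

theorem down_bound {n s : ℕ} (hz : 2 * s + 1 ≤ n) (M : Finset (Finset (Fin n)))
    (hM : IsAntichain (· ⊆ ·) (M : Set (Finset (Fin n)))) (hD : (down M).card < 4 ^ s) :
    (∑ j ∈ Icc s (2 * s + 1), ((M # j).card : ℝ) / (2 * s + 1).choose j) * 4 ^ s ≤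
      (down M).card := by
  classical
  set z := 2 * s + 1 with hzdef
  set g : ℕ → ℝ := fun j => ∑ i ∈ Icc j z, ((M # i).card : ℝ) / z.choose i with hg
  have hpos : ∀ j, j ≤ z → (0 : ℝ) < z.choose j := fun j hj => by
    exact_mod_cast Nat.choose_pos hj
  have key : ∀ k, k ≤ z - s → g (z - k) * z.choose (z - k) ≤ (falling (z - k) M).card := by
    intro k
    induction k with
    | zero =>
      intro _
      have h1 : g (z - 0) = ((M # z).card : ℝ) / z.choose z := by
        simp [hg]
      rw [h1]
      simp only [Nat.sub_zero, Nat.choose_self, Nat.cast_one, div_one, mul_one]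
      exact_mod_cast card_le_card (slice_subset_falling (k := z) (𝒜 := M))
    | succ k ih =>
      intro hk
      have ih' := ih (by omega)
      obtain ⟨j, hj⟩ : ∃ j, z - (k + 1) = j := ⟨_, rfl⟩
      have hj1 : z - k = j + 1 := by omega
      rw [hj1] at ih'
      rw [hj]
      have hjz : j + 1 ≤ z := by omega
      have hjs : s ≤ j := by omega
      have hg1 : g j = ((M # j).card : ℝ) / z.choose j + g (j + 1) := by
        simp only [hg]
        rw [← Finset.insert_Icc_add_one_left_eq_Icc (by omega : j ≤ z), sum_insert (by simp)]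
      have hF1 : g (j + 1) ≤ 1 := by
        have h2 : ((falling (j + 1) M).card : ℝ) ≤ z.choose (j + 1) := by
          exact_mod_cast falling_le hz M hD (j + 1) (by omega) hjz
        have h3 : g (j + 1) * z.choose (j + 1) ≤ 1 * z.choose (j + 1) := by
          rw [one_mul]; exact ih'.trans h2
        exact le_of_mul_le_mul_right h3 (hpos _ hjz)
      have h4 := shadow_ge hz hjz (g (j + 1)) hF1 (falling (j + 1) M) (sized_falling _ _) ih'
      have h5 : (falling j M).card = (M # j).card + (∂ (falling (j + 1) M)).card := by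
        rw [← slice_union_shadow_falling_succ j M, card_union_of_disjoint
          hM.disjoint_slice_shadow_falling]
      rw [h5, hg1, add_mul, div_mul_cancel₀ _ (hpos j (by omega)).ne']
      push_cast
      linarith
  have hs := key (z - s) le_rfl
  have hzs : z - (z - s) = s := by omega
  rw [hzs] at hs
  have hF1 : g s ≤ 1 := by
    have h2 : ((falling s M).card : ℝ) ≤ z.choose s := by
      exact_mod_cast falling_le hz M hD s le_rfl (by omega)
    have h3 : g s * z.choose s ≤ 1 * z.choose s := by
      rw [one_mul]; exact hs.trans h2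
    exact le_of_mul_le_mul_right h3 (hpos _ (by omega))
  have hall := falling_step hz M (g s) hF1 s (by omega) hs
  have h6 : (4 : ℝ) ^ s = ∑ k ∈ range (s + 1), (z.choose k : ℝ) := by
    have := Nat.sum_range_choose_halfway s
    rw [← hzdef] at this
    exact_mod_cast this.symm
  have h7 : ((∑ k ∈ range (s + 1), (falling k M).card : ℕ) : ℝ) ≤ (down M).card := by
    exact_mod_cast sum_falling_le M (s + 1)
  calc g s * 4 ^ s = ∑ k ∈ range (s + 1), g s * z.choose k := by rw [h6, mul_sum]
    _ ≤ ∑ k ∈ range (s + 1), ((falling k M).card : ℝ) := by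
        apply sum_le_sum
        intro k hk
        exact hall k (by rw [mem_range] at hk; omega)
    _ = ((∑ k ∈ range (s + 1), (falling k M).card : ℕ) : ℝ) := by push_cast; rfl
    _ ≤ _ := h7

end Pool.Agent.Lib.MP_e9f532_co.Dfc
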