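import Mathlib
import Pool.Agent.Lib.MP_e9f532_co.Blocks
import Pool.Agent.Lib.MP_e9f532_co.Dfc.Defs

set_option autoImplicit false

/-! Module U6 (few sets are not regular). -/

namespace Pool.Agent.Lib.MP_e9f532_co.Dfc

open Finset

lemma card_few {α : Type} [Fintype α] [DecidableEq α] (k : ℕ) :
    (univ.filter (fun A : Finset α => A.card ≤ k)).card ≤ (Fintype.card α + 1) ^ k := by
  classical
  have h1 : (univ.filter (fun A : Finset α => A.card ≤ k)) =
      (range (k + 1)).biUnion (fun j => powersetCard j (univ : Finset α)) := by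
    ext A
    simp [mem_powersetCard]
  rw [h1]
  calc ((range (k + 1)).biUnion (fun j => powersetCard j (univ : Finset α))).card
      ≤ ∑ j ∈ range (k + 1), (powersetCard j (univ : Finset α)).card := card_biUnion_le
    _ = ∑ j ∈ range (k + 1), (Fintype.card α).choose j := by simp [card_powersetCard]
    _ ≤ ∑ j ∈ range (k + 1), (Fintype.card α) ^ j * 1 ^ (k - j) * k.choose j := by
      apply sum_le_sum
      intro j hj
      have hjk : j ≤ k := Nat.lt_succ_iff.1 (mem_range.1 hj)
      have h2 : (Fintype.card α).choose j ≤ (Fintype.card α) ^ j := Nat.choose_le_pow _ j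
      have h3 : 1 ≤ k.choose j := Nat.choose_pos hjk
      calc (Fintype.card α).choose j ≤ (Fintype.card α) ^ j * 1 := by simpa using h2
        _ ≤ (Fintype.card α) ^ j * 1 ^ (k - j) * k.choose j := by
          simp only [one_pow, mul_one]
          exact Nat.le_mul_of_pos_right _ h3
    _ = (Fintype.card α + 1) ^ k := by rw [add_pow]; simp

/-- Sets with few points outside `Y`. -/
lemma card_near_set {N k : ℕ} (Y : Finset (G N)) :
    (univ.filter (fun C : Finset (G N) => (C \ Y).card ≤ k)).card ≤
      (2 * N + 1) ^ k * 2 ^ Y.card := by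
  classical
  have hc : Fintype.card (G N) = 2 * N := by simp [Fintype.card_prod, mul_comm]
  calc (univ.filter (fun C : Finset (G N) => (C \ Y).card ≤ k)).card
      ≤ ((univ.filter (fun A : Finset (G N) => A.card ≤ k)) ×ˢ Y.powerset).card := by
        apply Finset.card_le_card_of_injOn (fun C => (C \ Y, C ∩ Y))
        · intro C hC
          rw [mem_coe, mem_filter] at hC
          rw [mem_coe, mem_product, mem_filter, mem_powerset]
          exact ⟨⟨mem_univ _, hC.2⟩, inter_subset_right⟩
        · intro C _ C' _ h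
          simp only [Prod.mk.injEq] at h
          rw [← sdiff_union_inter C Y, h.1, h.2, sdiff_union_inter]
    _ ≤ (2 * N + 1) ^ k * 2 ^ Y.card := by
        rw [card_product, card_powerset]
        apply Nat.mul_le_mul_right
        have := card_few (α := G N) k
        rwa [hc] at this

theorem card_near_one {N : ℕ} (Z : Finset (G N)) (hZ : Z.card ≤ N + 1) :
    (univ.filter (fun C : Finset (G N) => (C \ Z).card ≤ 1)).card ≤ (2 * N + 1) * 2 ^ (N + 1) := by
  calc (univ.filter (fun C : Finset (G N) => (C \ Z).card ≤ 1)).card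
      ≤ (2 * N + 1) ^ 1 * 2 ^ Z.card := card_near_set Z
    _ ≤ (2 * N + 1) ^ 1 * 2 ^ (N + 1) :=
        Nat.mul_le_mul_left _ (Nat.pow_le_pow_right (by norm_num) hZ)
    _ = (2 * N + 1) * 2 ^ (N + 1) := by rw [pow_one]

theorem card_near_two {N q d : ℕ} (Z Z' : Finset (G N)) (hZ : (Z ∩ Z').card + d ≤ N + 2) :
    ((univ.filter (fun C : Finset (G N) => (C \ Z).card < q ∧ (C \ Z').card < q)).card : ℝ) ≤
      (2 * N + 1) ^ (2 * q) * 2 ^ (N + 2) / 2 ^ d := by
  classical
  have h1 : (univ.filter (fun C : Finset (G N) => (C \ Z).card < q ∧ (C \ Z').card < q)).card ≤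
      (2 * N + 1) ^ (2 * q) * 2 ^ (Z ∩ Z').card := by
    refine le_trans (card_le_card ?_) (card_near_set (Z ∩ Z'))
    intro C hC
    rw [mem_filter] at hC ⊢
    refine ⟨mem_univ _, ?_⟩
    have h2 : C \ (Z ∩ Z') ⊆ (C \ Z) ∪ (C \ Z') := by
      intro p hp
      simp only [mem_sdiff, mem_inter, mem_union] at hp ⊢
      tauto
    have h3 := (card_le_card h2).trans (card_union_le _ _)
    omega
  rw [le_div_iff₀ (by positivity)]
  have h4 : (univ.filter (fun C : Finset (G N) => (C \ Z).card < q ∧ (C \ Z').card < q)).card *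
      2 ^ d ≤ (2 * N + 1) ^ (2 * q) * 2 ^ (N + 2) := by
    calc _ ≤ ((2 * N + 1) ^ (2 * q) * 2 ^ (Z ∩ Z').card) * 2 ^ d := Nat.mul_le_mul_right _ h1
      _ = (2 * N + 1) ^ (2 * q) * 2 ^ ((Z ∩ Z').card + d) := by rw [pow_add]; ring
      _ ≤ (2 * N + 1) ^ (2 * q) * 2 ^ (N + 2) :=
        Nat.mul_le_mul_left _ (Nat.pow_le_pow_right (by norm_num) hZ)
  exact_mod_cast h4

lemma card_half {N : ℕ} (w : Fin N → Bool) : (half w).card = N := by
  classical
  have h : half w = univ.image (fun i : Fin N => ((i, w i) : G N)) := by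
    ext p
    rw [mem_half, mem_image]
    constructor
    · intro h; exact ⟨p.1, mem_univ _, by rw [← h]⟩
    · rintro ⟨i, -, rfl⟩; rfl
  rw [h, card_image_of_injective]
  · simp
  · intro i j hij
    exact (Prod.mk.inj hij).1

lemma card_cube_le {N : ℕ} (w : Fin N → Bool) (h : G N) : (cube w h).card ≤ N + 1 := by
  unfold cube
  refine (card_insert_le _ _).trans ?_
  rw [card_half]

lemma card_half_inter {N : ℕ} (w w' : Fin N → Bool) :
    (half w ∩ half w').card + dist w w' = N := by
  classical
  have h : half w ∩ half w' =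
      (univ.filter (fun i => w i = w' i)).image (fun i : Fin N => ((i, w i) : G N)) := by
    ext p
    rw [mem_inter, mem_half, mem_half, mem_image]
    constructor
    · rintro ⟨h1, h2⟩
      exact ⟨p.1, mem_filter.2 ⟨mem_univ _, h1.symm.trans h2⟩, by rw [← h1]⟩
    · rintro ⟨i, hi, rfl⟩
      exact ⟨rfl, (mem_filter.1 hi).2⟩
  rw [h, card_image_of_injective _ (fun i j hij => (Prod.mk.inj hij).1), dist]
  rw [card_filter_add_card_filter_not]
  simp

lemma card_cube_inter {N : ℕ} (w w' : Fin N → Bool) (h h' : G N) :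
    (cube w h ∩ cube w' h').card + dist w w' ≤ N + 2 := by
  classical
  have h1 : cube w h ∩ cube w' h' ⊆ insert h (insert h' (half w ∩ half w')) := by
    intro p hp
    simp only [cube, mem_inter, mem_insert] at hp ⊢
    tauto
  have h2 := card_le_card h1
  have h3 := card_insert_le h (insert h' (half w ∩ half w'))
  have h4 := card_insert_le h' (half w ∩ half w')
  have h5 := card_half_inter w w'
  omega

lemma dist_opp_opp {N : ℕ} (w w' : Fin N → Bool) : dist (opp w) (opp w') = dist w w' := by
  unfold dist opp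
  congr 1
  ext i
  simp only [mem_filter, mem_univ, true_and]
  cases w i <;> cases w' i <;> simp

lemma dist_opp_left {N : ℕ} (w w' : Fin N → Bool) : dist (opp w) w' = dist w (opp w') := by
  unfold dist opp
  congr 1
  ext i
  simp only [mem_filter, mem_univ, true_and]
  cases w i <;> cases w' i <;> simp

lemma dist_self_opp {N : ℕ} (w : Fin N → Bool) : dist w (opp w) = N := by
  unfold dist opp
  rw [filter_true_of_mem]
  · simp
  · intro i _
    cases w i <;> simp

theorem card_inter_cubes {N d : ℕ} (hd : d ≤ N) (S : Finset (Trial N))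
    (hS : ∀ s ∈ S, ∀ t ∈ S, s ≠ t → Far d s t) (Z Z' : Finset (G N)) (hZ : Z ∈ allCubes S)
    (hZ' : Z' ∈ allCubes S) (hne : Z ≠ Z') : (Z ∩ Z').card + d ≤ N + 2 := by
  classical
  simp only [allCubes, mem_biUnion, cubes, mem_insert, mem_singleton] at hZ hZ'
  obtain ⟨s, hs, hsZ⟩ := hZ
  obtain ⟨t, ht, htZ⟩ := hZ'
  by_cases hst : s = t
  · subst hst
    rcases hsZ with h1 | h1 <;> rcases htZ with h2 | h2
    · exact absurd (h1.trans h2.symm) hne
    · have h3 := card_cube_inter s.1 (opp s.1) s.2 s.2
      rw [dist_self_opp, ← h1, ← h2] at h3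
      omega
    · have h3 := card_cube_inter (opp s.1) s.1 s.2 s.2
      rw [dist_opp_left, dist_self_opp, ← h1, ← h2] at h3
      omega
    · exact absurd (h1.trans h2.symm) hne
  · obtain ⟨hf1, hf2⟩ := hS s hs t ht hst
    rcases hsZ with h1 | h1 <;> rcases htZ with h2 | h2
    · have h3 := card_cube_inter s.1 t.1 s.2 t.2
      rw [← h1, ← h2] at h3
      omega
    · have h3 := card_cube_inter s.1 (opp t.1) s.2 t.2
      rw [← h1, ← h2] at h3
      omega
    · have h3 := card_cube_inter (opp s.1) t.1 s.2 t.2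
      rw [dist_opp_left, ← h1, ← h2] at h3
      omega
    · have h3 := card_cube_inter (opp s.1) (opp t.1) s.2 t.2
      rw [dist_opp_opp, ← h1, ← h2] at h3
      omega

lemma card_small_G (N : ℕ) :
    ((univ.filter (fun C : Finset (G N) => 10 * C.card < N)).card : ℝ) ≤ 2 ^ N := by
  classical
  have hc : Fintype.card (G N) = 2 * N := by simp [Fintype.card_prod, mul_comm]
  let e : G N ≃ Fin (2 * N) := Fintype.equivFinOfCardEq hc
  have h1 : (univ.filter (fun C : Finset (G N) => 10 * C.card < N)).card ≤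
      ((univ : Finset (Finset (Fin (2 * N)))).filter (fun D => 20 * D.card < 2 * N)).card := by
    apply Finset.card_le_card_of_injOn (fun C => C.map e.toEmbedding)
    · intro C hC
      rw [mem_coe, mem_filter] at hC
      rw [mem_coe, mem_filter, card_map]
      exact ⟨mem_univ _, by omega⟩
    · intro C _ C' _ h
      exact map_injective _ h
  have h2 := card_small (2 * N)
  have h3 : (Real.sqrt 2) ^ (2 * N) = 2 ^ N := by
    rw [pow_mul, Real.sq_sqrt (by norm_num)]
  rw [h3] at h2
  exact le_trans (by exact_mod_cast h1) h2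

lemma card_large_G (N : ℕ) :
    ((univ.filter (fun C : Finset (G N) => 19 * N < 10 * C.card)).card : ℝ) ≤ 2 ^ N := by
  classical
  have hc : Fintype.card (G N) = 2 * N := by simp [Fintype.card_prod, mul_comm]
  have h1 : (univ.filter (fun C : Finset (G N) => 19 * N < 10 * C.card)).card ≤
      (univ.filter (fun C : Finset (G N) => 10 * C.card < N)).card := by
    apply Finset.card_le_card_of_injOn (fun C => Cᶜ)
    · intro C hC
      rw [mem_coe, mem_filter] at hC
      have hle : C.card ≤ 2 * N := hc ▸ card_le_univ C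
      rw [mem_coe, mem_filter, card_compl, hc]
      exact ⟨mem_univ _, by omega⟩
    · intro C _ C' _ h
      exact compl_injective h
  exact le_trans (by exact_mod_cast h1) (card_small_G N)

lemma card_allCubes_le' {N : ℕ} (S : Finset (Trial N)) : (allCubes S).card ≤ 2 * S.card := by
  calc (allCubes S).card ≤ ∑ t ∈ S, (cubes t).card := card_biUnion_le
    _ ≤ ∑ _t ∈ S, 2 := sum_le_sum fun t _ => card_le_two
    _ = 2 * S.card := by simp [mul_comm]

/-- Module U6. -/
theorem card_not_reg {N q d : ℕ} (hd : d ≤ N) (S : Finset (Trial N))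
    (hS : ∀ s ∈ S, ∀ t ∈ S, s ≠ t → Far d s t) :
    ((univ.filter (fun C : Finset (G N) => ¬ Reg q (allCubes S) C)).card : ℝ) ≤
      2 * 2 ^ N + (2 * S.card) * ((2 * N + 1) * 2 ^ (N + 1)) +
        (2 * S.card) ^ 2 * ((2 * N + 1) ^ (2 * q) * 2 ^ (N + 2) / 2 ^ d) := by
  classical
  set A1 := univ.filter (fun C : Finset (G N) => 10 * C.card < N) with hA1
  set A2 := univ.filter (fun C : Finset (G N) => 19 * N < 10 * C.card) with hA2
  set A3 := (allCubes S).biUnion
    (fun Z => univ.filter (fun C : Finset (G N) => (C \ Z).card ≤ 1)) with hA3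
  set P := ((allCubes S) ×ˢ (allCubes S)).filter (fun x => x.1 ≠ x.2) with hP
  set A4 := P.biUnion (fun x =>
    univ.filter (fun C : Finset (G N) => (C \ x.1).card < q ∧ (C \ x.2).card < q)) with hA4
  have hsub : univ.filter (fun C : Finset (G N) => ¬ Reg q (allCubes S) C) ⊆
      (A1 ∪ A2) ∪ (A3 ∪ A4) := by
    intro C hC
    rw [mem_filter] at hC
    by_contra hcon
    simp only [mem_union, not_or] at hcon
    obtain ⟨⟨h1, h2⟩, h3, h4⟩ := hcon
    apply hC.2
    refine ⟨?_, ?_, ?_, ?_⟩
    · by_contra h; exact h1 (mem_filter.2 ⟨mem_univ _, by omega⟩)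
    · by_contra h; exact h2 (mem_filter.2 ⟨mem_univ _, by omega⟩)
    · intro Z hZ
      by_contra h
      exact h3 (mem_biUnion.2 ⟨Z, hZ, mem_filter.2 ⟨mem_univ _, by omega⟩⟩)
    · intro Z hZ Z' hZ' hne
      by_contra h
      rw [not_or, not_le, not_le] at h
      exact h4 (mem_biUnion.2 ⟨(Z, Z'), mem_filter.2 ⟨mem_product.2 ⟨hZ, hZ'⟩, hne⟩,
        mem_filter.2 ⟨mem_univ _, h⟩⟩)
  have hle := card_le_card hsub
  have hle2 : (univ.filter (fun C : Finset (G N) => ¬ Reg q (allCubes S) C)).card ≤
      (A1.card + A2.card) + (A3.card + A4.card) :=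
    hle.trans ((card_union_le _ _).trans
      (Nat.add_le_add (card_union_le _ _) (card_union_le _ _)))
  have hcub := card_allCubes_le' S
  have h3 : A3.card ≤ (2 * S.card) * ((2 * N + 1) * 2 ^ (N + 1)) := by
    calc A3.card ≤ ∑ Z ∈ allCubes S,
          (univ.filter (fun C : Finset (G N) => (C \ Z).card ≤ 1)).card := card_biUnion_le
      _ ≤ ∑ _Z ∈ allCubes S, (2 * N + 1) * 2 ^ (N + 1) := by
        apply sum_le_sum
        intro Z hZ
        apply card_near_one
        simp only [allCubes, mem_biUnion, cubes, mem_insert, mem_singleton] at hZ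
        obtain ⟨t, -, h | h⟩ := hZ <;> rw [h] <;> exact card_cube_le _ _
      _ = (allCubes S).card * ((2 * N + 1) * 2 ^ (N + 1)) := by simp
      _ ≤ _ := Nat.mul_le_mul_right _ hcub
  have h4 : (A4.card : ℝ) ≤
      (2 * S.card) ^ 2 * ((2 * N + 1) ^ (2 * q) * 2 ^ (N + 2) / 2 ^ d) := by
    calc (A4.card : ℝ) ≤ ∑ x ∈ P, ((univ.filter (fun C : Finset (G N) =>
          (C \ x.1).card < q ∧ (C \ x.2).card < q)).card : ℝ) := by
          exact_mod_cast card_biUnion_le
      _ ≤ ∑ _x ∈ P, ((2 * N + 1) ^ (2 * q) * 2 ^ (N + 2) / 2 ^ d : ℝ) := by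
        apply sum_le_sum
        intro x hx
        rw [hP, mem_filter, mem_product] at hx
        exact card_near_two x.1 x.2 (card_inter_cubes hd S hS x.1 x.2 hx.1.1 hx.1.2 hx.2)
      _ = P.card * ((2 * N + 1) ^ (2 * q) * 2 ^ (N + 2) / 2 ^ d : ℝ) := by simp
      _ ≤ _ := by
        apply mul_le_mul_of_nonneg_right _ (by positivity)
        have h5 : P.card ≤ (2 * S.card) ^ 2 := by
          calc P.card ≤ ((allCubes S) ×ˢ (allCubes S)).card := card_le_card (filter_subset _ _)
            _ = (allCubes S).card * (allCubes S).card := card_product _ _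
            _ ≤ (2 * S.card) * (2 * S.card) := Nat.mul_le_mul hcub hcub
            _ = (2 * S.card) ^ 2 := by ring
        exact_mod_cast h5
  have e1 := card_small_G N
  have e2 := card_large_G N
  have e3 : (A3.card : ℝ) ≤ (2 * S.card) * ((2 * N + 1) * 2 ^ (N + 1)) := by exact_mod_cast h3
  have e0 : ((univ.filter (fun C : Finset (G N) => ¬ Reg q (allCubes S) C)).card : ℝ) ≤
      (A1.card + A2.card) + (A3.card + A4.card) := by exact_mod_cast hle2
  linarith

end Pool.Agent.Lib.MP_e9f532_co.Dfc
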