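import Mathlib
import Pool.Agent.Lib.MP_e9f532_co.Dfc.Defs

set_option autoImplicit false

/-! Module U4 (Greedy choice) and U3 (words near to a word). -/

namespace Pool.Agent.Lib.MP_e9f532_co.Dfc

open Finset

open Classical in
/-- The members of `R` that are covered by no member of `S`. -/
private noncomputable def unc {T U : Type} (cov : T → U → Prop) (R : Finset U)
    (S : Finset T) : Finset U := R.filter (fun C => ∀ t ∈ S, ¬ cov t C)

private lemma mem_unc {T U : Type} {cov : T → U → Prop} {R : Finset U} {S : Finset T} {C : U} :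
    C ∈ unc cov R S ↔ C ∈ R ∧ ∀ t ∈ S, ¬ cov t C := by
  classical
  simp [unc]

private lemma greedy_step {T U : Type} [Fintype T] [DecidableEq T] [DecidableEq U]
    (far : T → T → Prop) [DecidableRel far] (hsymm : ∀ s t, far s t → far t s)
    (β : ℕ) (α : ℝ) (hα0 : 0 < α)
    (hfar : ∀ s, (univ.filter (fun t => ¬ far s t)).card ≤ β)
    (S : Finset T) (hS : ∀ s ∈ S, ∀ t ∈ S, s ≠ t → far s t)
    (hβ : 2 * ((S.card : ℝ) * β) ≤ α)
    (cov : T → U → Prop) [∀ t, DecidablePred (cov t)] (R : Finset U)
    (hα : ∀ C ∈ R, α ≤ (univ.filter (fun t => cov t C)).card) (hR : R.Nonempty) :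
    ∃ t : T, (∀ s ∈ insert t S, ∀ t' ∈ insert t S, s ≠ t' → far s t') ∧
      (R.card : ℝ) * (α / (2 * Fintype.card T)) ≤ (R.filter (fun C => cov t C)).card := by
  classical
  -- allowed trials
  set A : Finset T := univ.filter (fun t => ∀ s ∈ S, far s t) with hA
  have hcompl : ((univ.filter (fun t => ¬ ∀ s ∈ S, far s t)).card : ℝ) ≤ (S.card : ℝ) * β := by
    have h1 : (univ.filter (fun t => ¬ ∀ s ∈ S, far s t)) ⊆
        S.biUnion (fun s => univ.filter (fun t => ¬ far s t)) := by
      intro t ht
      simp only [mem_filter, mem_univ, true_and, not_forall] at ht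
      obtain ⟨s, hs, hst⟩ := ht
      simp only [mem_biUnion, mem_filter, mem_univ, true_and]
      exact ⟨s, hs, hst⟩
    have h2 : (univ.filter (fun t => ¬ ∀ s ∈ S, far s t)).card ≤ S.card * β := by
      refine (card_le_card h1).trans ?_
      exact card_biUnion_le_card_mul _ _ _ (fun s _ => hfar s)
    exact_mod_cast h2
  have hTpos : 0 < Fintype.card T := by
    obtain ⟨C, hC⟩ := hR
    have h1 := hα C hC
    have h2 : 0 < (univ.filter (fun t => cov t C)).card := by
      have : (0 : ℝ) < ((univ.filter (fun t => cov t C)).card : ℝ) := lt_of_lt_of_le hα0 h1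
      exact_mod_cast this
    exact lt_of_lt_of_le h2 (by simpa using card_le_univ (univ.filter (fun t => cov t C)))
  -- every member of R is covered by at least α/2 allowed trials
  have hcovA : ∀ C ∈ R, α / 2 ≤ ((A.filter (fun t => cov t C)).card : ℝ) := by
    intro C hC
    have h1 := hα C hC
    have h2 : (univ.filter (fun t => cov t C)) ⊆
        (A.filter (fun t => cov t C)) ∪ (univ.filter (fun t => ¬ ∀ s ∈ S, far s t)) := by
      intro t ht
      simp only [mem_filter, mem_univ, true_and] at ht
      by_cases h : ∀ s ∈ S, far s t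
      · refine mem_union_left _ ?_
        simp only [hA, mem_filter, mem_univ, true_and]
        exact ⟨h, ht⟩
      · refine mem_union_right _ ?_
        simp only [mem_filter, mem_univ, true_and]
        exact h
    have h3 : (univ.filter (fun t => cov t C)).card ≤
        (A.filter (fun t => cov t C)).card + (univ.filter (fun t => ¬ ∀ s ∈ S, far s t)).card :=
      (card_le_card h2).trans (card_union_le _ _)
    have h4 : ((univ.filter (fun t => cov t C)).card : ℝ) ≤
        (A.filter (fun t => cov t C)).card +
          (univ.filter (fun t => ¬ ∀ s ∈ S, far s t)).card := by exact_mod_cast h3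
    linarith
  -- double counting
  have hdc : ∑ t ∈ A, ((R.filter (fun C => cov t C)).card : ℝ) =
      ∑ C ∈ R, ((A.filter (fun t => cov t C)).card : ℝ) := by
    have : ∑ t ∈ A, (R.filter (fun C => cov t C)).card =
        ∑ C ∈ R, (A.filter (fun t => cov t C)).card :=
      sum_card_bipartiteAbove_eq_sum_card_bipartiteBelow (fun t C => cov t C)
    exact_mod_cast this
  have hsum : (R.card : ℝ) * (α / 2) ≤ ∑ t ∈ A, ((R.filter (fun C => cov t C)).card : ℝ) := by
    rw [hdc]
    have := card_nsmul_le_sum R (fun C => ((A.filter (fun t => cov t C)).card : ℝ)) (α / 2) hcovA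
    simpa [nsmul_eq_mul] using this
  have hRpos : (0 : ℝ) < R.card := by exact_mod_cast card_pos.2 hR
  -- some allowed trial covers many
  have hex : ∃ t ∈ A, (R.card : ℝ) * (α / (2 * Fintype.card T)) ≤
      (R.filter (fun C => cov t C)).card := by
    by_contra hcon
    push Not at hcon
    have hTr : (0 : ℝ) < Fintype.card T := by exact_mod_cast hTpos
    have hAne : A.Nonempty := by
      rw [nonempty_iff_ne_empty]
      intro h0
      rw [h0, sum_empty] at hsum
      have : 0 < (R.card : ℝ) * (α / 2) := by positivity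
      linarith
    have h1 : ∑ t ∈ A, ((R.filter (fun C => cov t C)).card : ℝ) <
        ∑ _t ∈ A, (R.card : ℝ) * (α / (2 * Fintype.card T)) :=
      sum_lt_sum_of_nonempty hAne hcon
    rw [sum_const, nsmul_eq_mul] at h1
    have hAT : (A.card : ℝ) ≤ Fintype.card T := by exact_mod_cast card_le_univ A
    have h2 : (A.card : ℝ) * ((R.card : ℝ) * (α / (2 * Fintype.card T))) ≤
        (Fintype.card T : ℝ) * ((R.card : ℝ) * (α / (2 * Fintype.card T))) := by
      apply mul_le_mul_of_nonneg_right hAT
      positivity
    have h3 : (Fintype.card T : ℝ) * ((R.card : ℝ) * (α / (2 * Fintype.card T))) =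
        (R.card : ℝ) * (α / 2) := by
      field_simp
    linarith
  obtain ⟨t, htA, ht⟩ := hex
  refine ⟨t, ?_, ht⟩
  have htA' : ∀ s ∈ S, far s t := by
    simpa only [hA, mem_filter, mem_univ, true_and] using htA
  intro s hs t' ht' hne
  rcases mem_insert.1 hs with h1 | h1
  · rcases mem_insert.1 ht' with h2 | h2
    · exact absurd (h1.trans h2.symm) hne
    · rw [h1]
      exact hsymm _ _ (htA' _ h2)
  · rcases mem_insert.1 ht' with h2 | h2
    · rw [h2]
      exact htA' _ h1
    · exact hS _ h1 _ h2 hne

/-- Module U4. Greedy choice of at most `M` trials, pairwise far, that cover `R`. -/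
theorem greedy {T U : Type} [Fintype T] [DecidableEq T] [DecidableEq U]
    (far : T → T → Prop) [DecidableRel far] (hsymm : ∀ s t, far s t → far t s)
    (β B M : ℕ) (α : ℝ) (hα0 : 0 < α)
    (hfar : ∀ s, (univ.filter (fun t => ¬ far s t)).card ≤ β)
    (S₀ : Finset T) (hS₀ : ∀ s ∈ S₀, ∀ t ∈ S₀, s ≠ t → far s t)
    (hB : S₀.card + M ≤ B) (hβ : 2 * ((B : ℝ) * β) ≤ α)
    (cov : T → U → Prop) [∀ t, DecidablePred (cov t)] (R : Finset U)
    (hα : ∀ C ∈ R, α ≤ (univ.filter (fun t => cov t C)).card)
    (hM : (R.card : ℝ) * (1 - α / (2 * Fintype.card T)) ^ M < 1) :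
    ∃ S₁ : Finset T, S₁.card ≤ M ∧ (∀ s ∈ S₀ ∪ S₁, ∀ t ∈ S₀ ∪ S₁, s ≠ t → far s t) ∧
      ∀ C ∈ R, ∃ t ∈ S₁, cov t C := by
  classical
  rcases R.eq_empty_or_nonempty with hR0 | hR0
  · refine ⟨∅, by simp, by simpa using hS₀, ?_⟩
    intro C hC
    rw [hR0] at hC
    simp at hC
  -- the factor is non-negative
  have hx : 0 ≤ 1 - α / (2 * Fintype.card T) := by
    obtain ⟨C, hC⟩ := hR0
    have h1 := hα C hC
    have h2 : ((univ.filter (fun t => cov t C)).card : ℝ) ≤ Fintype.card T := by
      exact_mod_cast card_le_univ (univ.filter (fun t => cov t C))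
    have h3 : (0 : ℝ) < Fintype.card T := lt_of_lt_of_le hα0 (h1.trans h2)
    have h4 : α / (2 * Fintype.card T) ≤ 1 := by
      rw [div_le_one (by positivity)]
      linarith
    linarith
  have key : ∀ m : ℕ, m ≤ M → ∃ S₁ : Finset T, S₁.card ≤ m ∧
      (∀ s ∈ S₀ ∪ S₁, ∀ t ∈ S₀ ∪ S₁, s ≠ t → far s t) ∧
      ((unc cov R S₁).card : ℝ) ≤ (R.card : ℝ) * (1 - α / (2 * Fintype.card T)) ^ m := by
    intro m
    induction m with
    | zero =>
      intro _
      refine ⟨∅, by simp, by simpa using hS₀, ?_⟩
      simp only [pow_zero, mul_one]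
      have h0 : unc cov R (∅ : Finset T) ⊆ R := fun C hC => (mem_unc.1 hC).1
      exact_mod_cast card_le_card h0
    | succ m ih =>
      intro hm
      obtain ⟨S₁, hc, hf, hu⟩ := ih (by omega)
      rcases (unc cov R S₁).eq_empty_or_nonempty with hU | hU
      · refine ⟨S₁, by omega, hf, ?_⟩
        rw [hU]
        simp only [card_empty, Nat.cast_zero]
        positivity
      · have hcard : ((S₀ ∪ S₁).card : ℝ) ≤ B := by
          have : (S₀ ∪ S₁).card ≤ B := (card_union_le _ _).trans (by omega)
          exact_mod_cast this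
        have hβ' : 2 * (((S₀ ∪ S₁).card : ℝ) * β) ≤ α := by
          have hb : (0 : ℝ) ≤ β := Nat.cast_nonneg _
          have := mul_le_mul_of_nonneg_right hcard hb
          linarith
        obtain ⟨t, ht1, ht2⟩ := greedy_step far hsymm β α hα0 hfar (S₀ ∪ S₁) hf hβ' cov
          (unc cov R S₁) (fun C hC => hα C (mem_unc.1 hC).1) hU
        refine ⟨insert t S₁, (card_insert_le _ _).trans (by omega), ?_, ?_⟩
        · rw [union_insert]
          exact ht1
        · have hsub : (unc cov R (insert t S₁)) = (unc cov R S₁) \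
              ((unc cov R S₁).filter (fun C => cov t C)) := by
            ext C
            simp only [mem_unc, mem_filter, mem_sdiff, mem_insert, forall_eq_or_imp]
            tauto
          have hcd : ((unc cov R (insert t S₁)).card : ℝ) = ((unc cov R S₁).card : ℝ) -
              (((unc cov R S₁).filter (fun C => cov t C)).card : ℝ) := by
            rw [hsub, card_sdiff_of_subset (filter_subset _ _),
              Nat.cast_sub (card_le_card (filter_subset _ _))]
          rw [hcd, pow_succ]
          calc ((unc cov R S₁).card : ℝ) - (((unc cov R S₁).filter (fun C => cov t C)).card : ℝ)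
              ≤ ((unc cov R S₁).card : ℝ) -
                  ((unc cov R S₁).card : ℝ) * (α / (2 * Fintype.card T)) := by linarith
            _ = ((unc cov R S₁).card : ℝ) * (1 - α / (2 * Fintype.card T)) := by ring
            _ ≤ ((R.card : ℝ) * (1 - α / (2 * Fintype.card T)) ^ m) *
                  (1 - α / (2 * Fintype.card T)) := mul_le_mul_of_nonneg_right hu hx
            _ = (R.card : ℝ) * ((1 - α / (2 * Fintype.card T)) ^ m *
                  (1 - α / (2 * Fintype.card T))) := by ring
  obtain ⟨S₁, hc, hf, hu⟩ := key M le_rfl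
  refine ⟨S₁, hc, hf, ?_⟩
  have h0 : (unc cov R S₁).card = 0 := by
    have : ((unc cov R S₁).card : ℝ) < 1 := lt_of_le_of_lt hu hM
    have h' : (unc cov R S₁).card < 1 := by exact_mod_cast this
    omega
  intro C hC
  by_contra hcon
  push Not at hcon
  have : C ∈ unc cov R S₁ := mem_unc.2 ⟨hC, hcon⟩
  rw [card_eq_zero] at h0
  rw [h0] at this
  simp at this

private lemma card_near {N : ℕ} (d : ℕ) (u : Fin N → Bool) :
    (univ.filter (fun w : Fin N → Bool => dist u w ≤ d)).card ≤ (N + 1) ^ d := by
  classical
  let F : (Fin d → Option (Fin N)) → (Fin N → Bool) := fun f i =>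
    if ∃ j, f j = some i then ! u i else u i
  have hsub : (univ.filter (fun w : Fin N → Bool => dist u w ≤ d)) ⊆ univ.image F := by
    intro w hw
    simp only [mem_filter, mem_univ, true_and] at hw
    rw [mem_image]
    set D : Finset (Fin N) := univ.filter (fun i => u i ≠ w i) with hD
    have hlen : D.toList.length ≤ d := by
      rw [length_toList]
      exact hw
    refine ⟨fun j => D.toList[j.1]?, mem_univ _, ?_⟩
    funext i
    have hiff : (∃ j : Fin d, D.toList[j.1]? = some i) ↔ i ∈ D := by
      constructor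
      · rintro ⟨j, hj⟩
        have := List.mem_of_getElem? hj
        exact mem_toList.1 this
      · intro hi
        have hi' : i ∈ D.toList := mem_toList.2 hi
        obtain ⟨k, hk⟩ := List.mem_iff_getElem?.1 hi'
        have hk' : k < D.toList.length := by
          by_contra hcon
          rw [List.getElem?_eq_none (by omega)] at hk
          simp at hk
        exact ⟨⟨k, by omega⟩, hk⟩
    show (if ∃ j : Fin d, D.toList[j.1]? = some i then ! u i else u i) = w i
    by_cases hi : i ∈ D
    · rw [if_pos (hiff.2 hi)]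
      have : u i ≠ w i := by
        rw [hD, mem_filter] at hi
        exact hi.2
      cases hu : u i <;> cases hwi : w i <;> simp_all
    · rw [if_neg (fun h => hi (hiff.1 h))]
      by_contra hne
      exact hi (by rw [hD, mem_filter]; exact ⟨mem_univ _, hne⟩)
  refine (card_le_card hsub).trans (card_image_le.trans ?_)
  simp

private lemma dist_comm' {N : ℕ} (u w : Fin N → Bool) : dist u w = dist w u := by
  unfold dist
  congr 1
  ext i
  simp only [mem_filter, mem_univ, true_and]
  exact ne_comm

private lemma dist_opp {N : ℕ} (u w : Fin N → Bool) : dist u (opp w) = dist (opp u) w := by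
  unfold dist
  congr 1
  ext i
  simp only [mem_filter, mem_univ, true_and]
  unfold opp
  cases u i <;> cases w i <;> simp

/-- Module U3. -/
theorem card_not_far {N : ℕ} (d : ℕ) (s : Trial N) :
    (univ.filter (fun t : Trial N => ¬ Far d s t)).card ≤ 4 * N * (N + 1) ^ d := by
  classical
  have hsub : (univ.filter (fun t : Trial N => ¬ Far d s t)) ⊆
      ((univ.filter (fun w : Fin N → Bool => dist s.1 w ≤ d)) ∪
        (univ.filter (fun w : Fin N → Bool => dist (opp s.1) w ≤ d))) ×ˢ
          (univ : Finset (G N)) := by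
    intro t ht
    simp only [mem_filter, mem_univ, true_and] at ht
    rw [mem_product]
    refine ⟨?_, mem_univ _⟩
    rw [mem_union, mem_filter, mem_filter]
    by_cases h1 : dist s.1 t.1 ≤ d
    · exact Or.inl ⟨mem_univ _, h1⟩
    · refine Or.inr ⟨mem_univ _, ?_⟩
      rw [← dist_opp]
      by_contra h2
      exact ht ⟨by omega, by omega⟩
  refine (card_le_card hsub).trans ?_
  rw [card_product]
  have h1 := card_near d s.1
  have h2 := card_near d (opp s.1)
  have h3 := card_union_le (univ.filter (fun w : Fin N → Bool => dist s.1 w ≤ d))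
    (univ.filter (fun w : Fin N → Bool => dist (opp s.1) w ≤ d))
  have h4 : (univ : Finset (G N)).card = 2 * N := by
    simp [G, Fintype.card_prod, mul_comm]
  rw [h4]
  calc _ ≤ (2 * (N + 1) ^ d) * (2 * N) := Nat.mul_le_mul_right _ (by omega)
    _ = 4 * N * (N + 1) ^ d := by ring

theorem far_symm {N : ℕ} (d : ℕ) (s t : Trial N) (h : Far d s t) : Far d t s := by
  obtain ⟨h1, h2⟩ := h
  refine ⟨by rwa [dist_comm'], ?_⟩
  rw [dist_comm', ← dist_opp]
  exact h2

end Pool.Agent.Lib.MP_e9f532_co.Dfc
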