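import Mathlib
import Pool.Agent.Lib.MP_e9f532_co.Dfc.Defs
import Pool.Agent.Lib.MP_e9f532_co.Dfc.Count
import Pool.Agent.Lib.MP_e9f532_co.Dfc.Greedy

set_option autoImplicit false

/-! Module U5 (choice of the trials of all levels). -/

namespace Pool.Agent.Lib.MP_e9f532_co.Dfc

open Finset

lemma card_allCubes_le {N : ℕ} (S : Finset (Trial N)) : (allCubes S).card ≤ 2 * S.card := by
  calc (allCubes S).card ≤ ∑ t ∈ S, (cubes t).card := card_biUnion_le
    _ ≤ ∑ _t ∈ S, 2 := sum_le_sum fun t _ => card_le_two
    _ = 2 * S.card := by simp [mul_comm]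

lemma card_above_le {N M : ℕ} (T : ℕ → Finset (Trial N)) (hT : ∀ l, (T l).card ≤ M) (k : ℕ) :
    (above T k).card ≤ (N - k) * M := by
  calc (above T k).card ≤ ∑ l ∈ Finset.Ioc k N, (T l).card := card_biUnion_le
    _ ≤ ∑ _l ∈ Finset.Ioc k N, M := sum_le_sum fun l _ => hT l
    _ = (N - k) * M := by simp

lemma above_congr {N k : ℕ} {T T' : ℕ → Finset (Trial N)} (h : ∀ l, k < l → T l = T' l) :
    above T k = above T' k := by
  unfold above
  apply Finset.biUnion_congr rfl
  intro l hl
  exact h l (Finset.mem_Ioc.1 hl).1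

lemma above_succ {N k : ℕ} (T : ℕ → Finset (Trial N)) (hk : k + 1 ≤ N) :
    above T k = above T (k + 1) ∪ T (k + 1) := by
  ext t
  simp only [above, mem_biUnion, mem_union, Finset.mem_Ioc]
  constructor
  · rintro ⟨l, ⟨h1, h2⟩, h3⟩
    by_cases h4 : l = k + 1
    · right; rw [← h4]; exact h3
    · left; exact ⟨l, ⟨by omega, h2⟩, h3⟩
  · rintro (⟨l, ⟨h1, h2⟩, h3⟩ | h3)
    · exact ⟨l, ⟨by omega, h2⟩, h3⟩
    · exact ⟨k + 1, ⟨by omega, hk⟩, h3⟩

/-- Module U5. -/
theorem exists_levels {N q d M : ℕ} (hN : 40 ≤ N)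
    (hq : 1280 * (N + 1) * (2 * (N * M)) ≤ 2 ^ q)
    (hd : 2 * ((N * M : ℕ) : ℝ) * (4 * N * (N + 1) ^ d) ≤ 2 * N * 2 ^ N / (320 * (N + 1)))
    (hM : (2 : ℝ) ^ (2 * N) * (1 - 1 / (640 * (N + 1))) ^ M < 1) :
    ∃ T : ℕ → Finset (Trial N), (∀ l, (T l).card ≤ M) ∧
      (∀ s ∈ above T 0, ∀ t ∈ above T 0, s ≠ t → Far d s t) ∧
      ∀ C : Finset (G N), 1 ≤ lev C → lev C ≤ N → Reg q (allCubes (above T (lev C))) C →
        ∃ t ∈ T (lev C), Cov (allCubes (above T (lev C))) t C := by
  classical
  have key : ∀ j, j ≤ N → ∃ T : ℕ → Finset (Trial N), (∀ l, (T l).card ≤ M) ∧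
      (∀ s ∈ above T (N - j), ∀ t ∈ above T (N - j), s ≠ t → Far d s t) ∧
      ∀ C : Finset (G N), N - j < lev C → lev C ≤ N → Reg q (allCubes (above T (lev C))) C →
        ∃ t ∈ T (lev C), Cov (allCubes (above T (lev C))) t C := by
    intro j
    induction j with
    | zero =>
      intro _
      refine ⟨fun _ => ∅, by simp, ?_, ?_⟩
      · intro s hs
        simp [above] at hs
      · intro C h1 h2
        omega
    | succ j ih =>
      intro hj
      obtain ⟨T, hT, hfar, hcov⟩ := ih (by omega)
      obtain ⟨k, hk⟩ : ∃ k, N - j = k + 1 := ⟨N - j - 1, by omega⟩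
      have hkN : k + 1 ≤ N := by omega
      have hNj : N - (j + 1) = k := by omega
      rw [hk] at hfar hcov
      rw [hNj]
      set S₀ := above T (k + 1) with hS₀
      have hS₀c : S₀.card ≤ (N - (k + 1)) * M := card_above_le T hT (k + 1)
      have hB : S₀.card + M ≤ N * M := by
        calc S₀.card + M ≤ (N - (k + 1)) * M + M := by omega
          _ = (N - (k + 1) + 1) * M := by ring
          _ ≤ N * M := Nat.mul_le_mul_right _ (by omega)
      set α : ℝ := 2 * N * 2 ^ N / (320 * (N + 1)) with hα
      have hNpos : (0 : ℝ) < N := by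
        have : 0 < N := by omega
        exact_mod_cast this
      have hα0 : 0 < α := by rw [hα]; positivity
      have hβ : 2 * (((N * M : ℕ) : ℝ) * ((4 * N * (N + 1) ^ d : ℕ) : ℝ)) ≤ α := by
        have h1 : (((4 * N * (N + 1) ^ d : ℕ)) : ℝ) = 4 * N * (N + 1) ^ d := by push_cast; ring
        rw [h1, ← mul_assoc]
        exact hd
      set R : Finset (Finset (G N)) :=
        univ.filter (fun C => lev C = k + 1 ∧ Reg q (allCubes S₀) C) with hR
      have hcardT : (Fintype.card (Trial N) : ℝ) = 2 ^ N * (2 * N) := by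
        have : Fintype.card (Trial N) = 2 ^ N * (N * 2) := by
          simp [Fintype.card_prod]
        rw [this]; push_cast; ring
      have hαR : ∀ C ∈ R, α ≤ ((univ.filter (fun t => Cov (allCubes S₀) t C)).card : ℝ) := by
        intro C hC
        rw [hR, mem_filter] at hC
        have hq' : 1280 * (N + 1) * (allCubes S₀).card ≤ 2 ^ q := by
          refine le_trans (Nat.mul_le_mul_left _ ?_) hq
          calc (allCubes S₀).card ≤ 2 * S₀.card := card_allCubes_le S₀
            _ ≤ 2 * (N * M) := Nat.mul_le_mul_left _ (by omega)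
        have h1 := cov_count hN S₀ C hq' hC.2.2
        have h2 : (2 * N * 2 ^ N : ℝ) ≤
            320 * (N + 1) * ((univ.filter (fun t => Cov (allCubes S₀) t C)).card : ℝ) := by
          exact_mod_cast h1
        rw [hα, div_le_iff₀ (by positivity)]
        linarith
      have hMR : (R.card : ℝ) * (1 - α / (2 * Fintype.card (Trial N))) ^ M < 1 := by
        have h1 : α / (2 * Fintype.card (Trial N)) = 1 / (640 * (N + 1)) := by
          rw [hcardT, hα]
          field_simp
          ring
        rw [h1]
        have h2 : (R.card : ℝ) ≤ 2 ^ (2 * N) := by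
          have h3 : R.card ≤ 2 ^ (2 * N) := by
            calc R.card ≤ (univ : Finset (Finset (G N))).card := card_le_card (filter_subset _ _)
              _ = 2 ^ (2 * N) := by
                rw [card_univ, Fintype.card_finset]
                congr 1
                simp [Fintype.card_prod, mul_comm]
          exact_mod_cast h3
        have h4 : (0 : ℝ) ≤ (1 - 1 / (640 * (N + 1))) ^ M := by
          apply pow_nonneg
          rw [sub_nonneg, div_le_one (by positivity)]
          linarith
        exact lt_of_le_of_lt (mul_le_mul_of_nonneg_right h2 h4) hM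
      obtain ⟨S₁, hS₁M, hS₁far, hS₁cov⟩ := greedy (Far d) (fun s t h => far_symm d s t h)
        (4 * N * (N + 1) ^ d) (N * M) M α hα0 (card_not_far d) S₀ hfar hB hβ
        (fun t C => Cov (allCubes S₀) t C) R hαR hMR
      refine ⟨Function.update T (k + 1) S₁, ?_, ?_, ?_⟩
      · intro l
        by_cases h : l = k + 1
        · subst h; simpa using hS₁M
        · rw [Function.update_of_ne h]; exact hT l
      · have h1 : above (Function.update T (k + 1) S₁) k = S₀ ∪ S₁ := by
          rw [above_succ _ hkN, Function.update_self]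
          congr 1
          apply above_congr
          intro l hl
          rw [Function.update_of_ne (by omega)]
        rw [h1]
        exact hS₁far
      · intro C h1 h2 h3
        have h4 : above (Function.update T (k + 1) S₁) (lev C) = above T (lev C) := by
          apply above_congr
          intro l hl
          rw [Function.update_of_ne (by omega)]
        rw [h4] at h3 ⊢
        by_cases h5 : lev C = k + 1
        · rw [h5] at h3 ⊢
          rw [Function.update_self]
          exact hS₁cov C (by rw [hR, mem_filter]; exact ⟨mem_univ _, h5, h3⟩)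
        · rw [Function.update_of_ne h5]
          exact hcov C (by omega) h2 h3
  obtain ⟨T, h1, h2, h3⟩ := key N le_rfl
  rw [Nat.sub_self] at h2 h3
  exact ⟨T, h1, h2, fun C hC1 hC2 hC3 => h3 C (by omega) hC2 hC3⟩

end Pool.Agent.Lib.MP_e9f532_co.Dfc
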