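import Mathlib
import Pool.Agent.Lib.MP_e9f532_co.Dfc.Downset

set_option autoImplicit false

/-!
The weight inequality for the unions of pairs of members of a family.
-/

namespace Pool.Agent.Lib.MP_e9f532_co.Dfc

open Finset
open scoped FinsetFamily

/-- The sets that occur as the union of two different members. -/
def unions {n : ℕ} (M : Finset (Finset (Fin n))) : Finset (Finset (Fin n)) :=
  M.offDiag.image (fun p => p.1 ∪ p.2)

lemma sum_image_le' {α β : Type} [DecidableEq β] (S : Finset α) (g : α → β) (w : β → ℝ)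
    (hw : ∀ b, 0 ≤ w b) : ∑ b ∈ S.image g, w b ≤ ∑ a ∈ S, w (g a) := by
  rw [Finset.sum_comp w g]
  apply sum_le_sum
  intro b hb
  obtain ⟨a, ha, rfl⟩ := mem_image.1 hb
  have h1 : 1 ≤ (S.filter (fun x => g x = g a)).card := by
    rw [Nat.one_le_iff_ne_zero, ← Nat.pos_iff_ne_zero, card_pos]
    exact ⟨a, by simp [ha]⟩
  rw [nsmul_eq_mul]
  have h2 : (1 : ℝ) ≤ ((S.filter (fun x => g x = g a)).card : ℝ) := by exact_mod_cast h1
  calc w (g a) = 1 * w (g a) := (one_mul _).symm
    _ ≤ _ := mul_le_mul_of_nonneg_right h2 (hw _)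

lemma weights {n : ℕ} (M : Finset (Finset (Fin n))) (x y : ℝ) (hy : 0 < y)
    (hxy : x + y = 1) (hle : y ≤ x) :
    (1 - ((2 : ℝ) ^ n - (unions M).card) * x ^ n) / y ^ n ≤
      (∑ P ∈ M, (x / y) ^ P.card) ^ 2 := by
  classical
  have hx : 0 < x := lt_of_lt_of_le hy hle
  set L : ℝ := x / y with hL
  have hL1 : 1 ≤ L := by rw [hL, le_div_iff₀ hy]; linarith
  have hL0 : 0 ≤ L := by linarith
  -- total weight
  have h1 : ∑ C : Finset (Fin n), L ^ C.card = 1 / y ^ n := by
    have h2 := Finset.sum_pow_mul_eq_add_pow L 1 (univ : Finset (Fin n))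
    simp only [one_pow, mul_one, card_univ, Fintype.card_fin, powerset_univ] at h2
    rw [h2, hL]
    have : x / y + 1 = 1 / y := by field_simp; exact hxy
    rw [this, div_pow, one_pow]
  have h2 : ∑ C ∈ unions M, L ^ C.card ≤ (∑ P ∈ M, L ^ P.card) ^ 2 := by
    calc ∑ C ∈ unions M, L ^ C.card
        ≤ ∑ p ∈ M.offDiag, L ^ (p.1 ∪ p.2).card :=
          sum_image_le' M.offDiag (fun p => p.1 ∪ p.2) (fun C => L ^ C.card)
            (fun C => by positivity)
      _ ≤ ∑ p ∈ M.offDiag, L ^ p.1.card * L ^ p.2.card := by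
          apply sum_le_sum
          intro p _
          rw [← pow_add]
          exact pow_le_pow_right₀ hL1 (card_union_le _ _)
      _ ≤ ∑ p ∈ M ×ˢ M, L ^ p.1.card * L ^ p.2.card := by
          apply sum_le_sum_of_subset_of_nonneg
          · intro p hp
            rw [mem_offDiag] at hp
            rw [mem_product]
            exact ⟨hp.1, hp.2.1⟩
          · intro p _ _; positivity
      _ = (∑ P ∈ M, L ^ P.card) ^ 2 := by
          rw [sum_product, sq, sum_mul_sum]
  have h3 : ∑ C ∈ (unions M)ᶜ, L ^ C.card ≤ ((2 : ℝ) ^ n - (unions M).card) * L ^ n := by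
    have h4 : ((unions M)ᶜ.card : ℝ) = (2 : ℝ) ^ n - (unions M).card := by
      rw [card_compl, Fintype.card_finset, Fintype.card_fin, Nat.cast_sub]
      · push_cast; rfl
      · have := card_le_univ (unions M)
        simpa using this
    rw [← h4]
    calc ∑ C ∈ (unions M)ᶜ, L ^ C.card ≤ ∑ _C ∈ (unions M)ᶜ, L ^ n := by
          apply sum_le_sum
          intro C _
          apply pow_le_pow_right₀ hL1
          simpa using card_le_univ C
      _ = _ := by rw [sum_const, nsmul_eq_mul]
  have h5 := sum_add_sum_compl (unions M) (fun C => L ^ C.card)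
  rw [h1] at h5
  have hyn : 0 < y ^ n := by positivity
  have h6 : (1 - ((2 : ℝ) ^ n - (unions M).card) * x ^ n) / y ^ n =
      1 / y ^ n - ((2 : ℝ) ^ n - (unions M).card) * L ^ n := by
    rw [hL, div_pow]
    field_simp
  rw [h6]
  linarith

lemma down_add_unions {n : ℕ} (M : Finset (Finset (Fin n)))
    (hM : IsAntichain (· ⊆ ·) (M : Set (Finset (Fin n)))) :
    ((down M).card : ℝ) ≤ (2 : ℝ) ^ n - (unions M).card := by
  classical
  have hdis : Disjoint (down M) (unions M) := by
    rw [Finset.disjoint_left]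
    intro C hC hC'
    rw [down, mem_filter] at hC
    obtain ⟨_, R, hR, hCR⟩ := hC
    rw [unions, mem_image] at hC'
    obtain ⟨⟨P, Q⟩, hPQ, rfl⟩ := hC'
    rw [mem_offDiag] at hPQ
    obtain ⟨hP, hQ, hne⟩ := hPQ
    simp only at hP hQ hne hCR
    have e1 : P = R := by
      by_contra hcon
      exact hM (by exact_mod_cast hP) (by exact_mod_cast hR) hcon
        (subset_union_left.trans hCR)
    have e2 : Q = R := by
      by_contra hcon
      exact hM (by exact_mod_cast hQ) (by exact_mod_cast hR) hcon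
        (subset_union_right.trans hCR)
    exact hne (e1.trans e2.symm)
  have h1 : (down M).card + (unions M).card ≤ 2 ^ n := by
    rw [← card_union_of_disjoint hdis]
    have := card_le_univ (down M ∪ unions M)
    simpa using this
  have h2 : (((down M).card + (unions M).card : ℕ) : ℝ) ≤ ((2 ^ n : ℕ) : ℝ) := by
    exact_mod_cast h1
  push_cast at h2
  linarith

lemma card_le_down {n : ℕ} (M : Finset (Finset (Fin n))) : M.card ≤ (down M).card := by
  apply card_le_card
  intro P hP
  rw [down, mem_filter]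
  exact ⟨mem_univ _, P, hP, Subset.refl _⟩

lemma one_le_missing {n : ℕ} (M : Finset (Finset (Fin n))) :
    (1 : ℝ) ≤ (2 : ℝ) ^ n - (unions M).card := by
  classical
  have h1 : (∅ : Finset (Fin n)) ∉ unions M := by
    intro hC'
    rw [unions, mem_image] at hC'
    obtain ⟨⟨P, Q⟩, hPQ, he⟩ := hC'
    rw [mem_offDiag] at hPQ
    simp only [union_eq_empty] at he
    exact hPQ.2.2 (he.1.trans he.2.symm)
  have h2 : (unions M).card < 2 ^ n := by
    have := card_lt_univ_of_notMem h1
    simpa using this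
  have h3 : (((unions M).card + 1 : ℕ) : ℝ) ≤ ((2 ^ n : ℕ) : ℝ) := by exact_mod_cast h2
  push_cast at h3
  linarith

end Pool.Agent.Lib.MP_e9f532_co.Dfc
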