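import Mathlib
import Pool.Agent.Lib.MP_e9f532_co.Dfc.Downset
import Pool.Agent.Lib.MP_e9f532_co.Dfc.Weights
import Pool.Agent.Lib.MP_e9f532_co.Dfc.Bernstein

set_option autoImplicit false

/-!
The lower bound: an antichain of subsets of an `n`-set misses at least `c (n / log n) 2^(n/2)` sets
as unions of two different members.
-/

namespace Pool.Agent.Lib.MP_e9f532_co.Dfc

open Finset
open scoped FinsetFamily

lemma sum_slices {n : ℕ} (M : Finset (Finset (Fin n))) (z : ℕ) (hz : ∀ P ∈ M, P.card ≤ z)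
    (f : ℕ → ℝ) : ∑ P ∈ M, f P.card = ∑ i ∈ range (z + 1), ((M # i).card : ℝ) * f i := by
  classical
  rw [← sum_fiberwise_of_maps_to (t := range (z + 1)) (g := fun P => P.card)
    (fun P hP => by rw [mem_range]; have := hz P hP; omega)]
  apply sum_congr rfl
  intro i _
  rw [← nsmul_eq_mul, ← sum_const]
  apply sum_congr
  · ext P
    simp [Finset.mem_slice]
  · intro P hP
    rw [Finset.mem_slice] at hP
    rw [hP.2]

/-- Splitting the weight of `M` at the level `s`. -/
lemma weight_split {n s : ℕ} (M : Finset (Finset (Fin n)))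
    (hD : (down M).card < 4 ^ s) (x y : ℝ) (hy : 0 < y) (hle : y ≤ x) :
    (∑ P ∈ M, (x / y) ^ P.card) * y ^ (2 * s + 1) ≤
      (∑ i ∈ Icc s (2 * s + 1), ((M # i).card : ℝ) * (x ^ i * y ^ (2 * s + 1 - i))) +
        (4 * (x * y)) ^ s * y := by
  classical
  have hx : 0 < x := lt_of_lt_of_le hy hle
  set z := 2 * s + 1 with hz
  have hcard : ∀ P ∈ M, P.card ≤ z := fun P hP => by
    have := card_le_of_down M hD P hP
    omega
  have h1 : (∑ P ∈ M, (x / y) ^ P.card) * y ^ z = ∑ P ∈ M, x ^ P.card * y ^ (z - P.card) := by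
    rw [sum_mul]
    apply sum_congr rfl
    intro P hP
    have h2 := hcard P hP
    have h3 : y ^ z = y ^ P.card * y ^ (z - P.card) := by
      rw [← pow_add]; congr 1; omega
    rw [h3, div_pow]
    have : y ^ P.card ≠ 0 := by positivity
    field_simp
  rw [h1]
  rw [← sum_filter_add_sum_filter_not M (fun P => s ≤ P.card)]
  apply add_le_add
  · have h4 := sum_slices (M.filter (fun P => s ≤ P.card)) z
      (fun P hP => hcard P (mem_filter.1 hP).1) (fun i => x ^ i * y ^ (z - i))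
    rw [h4]
    have h5 : ∑ i ∈ range (z + 1), (((M.filter (fun P => s ≤ P.card)) # i).card : ℝ) *
        (x ^ i * y ^ (z - i)) = ∑ i ∈ Icc s z, (((M.filter (fun P => s ≤ P.card)) # i).card : ℝ) *
        (x ^ i * y ^ (z - i)) := by
      symm
      apply sum_subset
      · intro i hi
        rw [mem_Icc] at hi
        rw [mem_range]; omega
      · intro i hi hni
        rw [mem_range] at hi
        rw [mem_Icc, not_and_or] at hni
        have hlt : i < s := by omega
        have : ((M.filter (fun P => s ≤ P.card)) # i) = ∅ := by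
          rw [eq_empty_iff_forall_notMem]
          intro P hP
          rw [Finset.mem_slice, mem_filter] at hP
          omega
        rw [this]
        simp
    rw [h5]
    apply sum_le_sum
    intro i _
    apply mul_le_mul_of_nonneg_right
    · have : ((M.filter (fun P => s ≤ P.card)) # i) ⊆ M # i := by
        intro P hP
        rw [Finset.mem_slice, mem_filter] at hP
        rw [Finset.mem_slice]
        exact ⟨hP.1.1, hP.2⟩
      exact_mod_cast card_le_card this
    · positivity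
  · have h6 : ∀ P ∈ M.filter (fun P => ¬ s ≤ P.card), x ^ P.card * y ^ (z - P.card) ≤
        (x * y) ^ s * y := by
      intro P hP
      rw [mem_filter, not_le] at hP
      obtain ⟨_, hlt⟩ := hP
      have h7 : z - P.card = (s + 1) + (s - P.card) := by omega
      have h8 : x ^ s = x ^ P.card * x ^ (s - P.card) := by
        rw [← pow_add]; congr 1; omega
      have h9 : y ^ (s - P.card) ≤ x ^ (s - P.card) := pow_le_pow_left₀ hy.le hle _
      calc x ^ P.card * y ^ (z - P.card) = (x ^ P.card * y ^ (s - P.card)) * y ^ (s + 1) := by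
            rw [h7, pow_add]; ring
        _ ≤ (x ^ P.card * x ^ (s - P.card)) * y ^ (s + 1) := by
            apply mul_le_mul_of_nonneg_right _ (by positivity)
            apply mul_le_mul_of_nonneg_left h9 (by positivity)
        _ = (x * y) ^ s * y := by rw [← h8, mul_pow, pow_succ]; ring
    have h10 : ((M.filter (fun P => ¬ s ≤ P.card)).card : ℝ) ≤ 4 ^ s := by
      have h11 : (M.filter (fun P => ¬ s ≤ P.card)).card ≤ 4 ^ s :=
        ((card_filter_le _ _).trans (card_le_down M)).trans hD.le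
      exact_mod_cast h11
    calc ∑ P ∈ M.filter (fun P => ¬ s ≤ P.card), x ^ P.card * y ^ (z - P.card)
        ≤ ∑ _P ∈ M.filter (fun P => ¬ s ≤ P.card), (x * y) ^ s * y := sum_le_sum h6
      _ = ((M.filter (fun P => ¬ s ≤ P.card)).card : ℝ) * ((x * y) ^ s * y) := by
          rw [sum_const, nsmul_eq_mul]
      _ ≤ 4 ^ s * ((x * y) ^ s * y) := mul_le_mul_of_nonneg_right h10 (by positivity)
      _ = (4 * (x * y)) ^ s * y := by rw [mul_pow 4]; ring

/-- The pointwise lower bound. -/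
lemma pointwise {n s : ℕ} (hn : 8 ≤ n) (M : Finset (Finset (Fin n)))
    (hD : (down M).card < 4 ^ s) (Q : ℝ) (hQ : Q = n * (Real.sqrt 2) ^ n)
    (hmQ : (2 : ℝ) ^ n - (unions M).card ≤ Q) (hQs : Q < 4 ^ s) (hsQ : (4 : ℝ) ^ s ≤ 4 * Q)
    (hn1 : (n : ℝ) * (17 / 20) ^ n ≤ 1 / 2)
    (hn2 : Real.exp (-(n / (2304 * Real.log n ^ 2))) ≤ 1 / (23 * n))
    (x : ℝ) (hx1 : 1 / 2 + 1 / (48 * Real.log n) ≤ x) (hx2 : x ≤ 1 / 2 + 2 / (48 * Real.log n)) :
    1 / (46 * (n : ℝ)) ≤ ∑ i ∈ Icc s (2 * s + 1), ((M # i).card : ℝ) *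
      (x ^ i * (1 - x) ^ (2 * s + 1 - i)) := by
  have hn8 : (8 : ℝ) ≤ n := by exact_mod_cast hn
  have hnpos : (0 : ℝ) < n := by linarith
  have hlog2 : (0.6931471803 : ℝ) < Real.log 2 := Real.log_two_gt_d9
  have hlog : 2 ≤ Real.log n := by
    have h1 : Real.log 8 ≤ Real.log n := Real.log_le_log (by norm_num) hn8
    have h2 : Real.log 8 = 3 * Real.log 2 := by
      rw [show (8 : ℝ) = 2 ^ 3 by norm_num, Real.log_pow]; norm_num
    linarith
  set K := Real.log n with hK
  have hKpos : 0 < K := by linarith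
  set y := 1 - x with hy
  obtain ⟨u, hu⟩ : ∃ u, u = x - 1 / 2 := ⟨_, rfl⟩
  have hu1 : 1 / (48 * K) ≤ u := by rw [hu]; linarith
  have hu2 : u ≤ 2 / (48 * K) := by rw [hu]; linarith
  have hu0 : 0 < u := lt_of_lt_of_le (by positivity) hu1
  have hu3 : u ≤ 1 / 48 := by
    refine hu2.trans ?_
    rw [div_le_div_iff₀ (by positivity) (by norm_num)]
    linarith
  have hx : x = 1 / 2 + u := by rw [hu]; ring
  have hyu : y = 1 / 2 - u := by rw [hy, hx]; ring
  have hy0 : 0 < y := by rw [hyu]; linarith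
  have hyx : y ≤ x := by rw [hyu, hx]; linarith
  have hy12 : y ≤ 1 / 2 := by rw [hyu]; linarith
  have hx0 : 0 < x := by linarith
  have hxy1 : x + y = 1 := by rw [hy]; ring
  have hsq2 : (Real.sqrt 2) ^ 2 = 2 := Real.sq_sqrt (by norm_num)
  have hsq0 : 0 < Real.sqrt 2 := Real.sqrt_pos.2 (by norm_num)
  have hsq1 : 1 ≤ Real.sqrt 2 := by
    rw [Real.one_le_sqrt]; norm_num
  -- s and n
  have hns : n ≤ 4 * s := by
    by_contra hcon
    push Not at hcon
    have h1 : (4 : ℝ) ^ s = (Real.sqrt 2) ^ (4 * s) := by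
      rw [show 4 * s = 2 * (2 * s) by ring, pow_mul, hsq2, pow_mul]; norm_num
    have h2 : (Real.sqrt 2) ^ (4 * s) ≤ (Real.sqrt 2) ^ n := pow_le_pow_right₀ hsq1 hcon.le
    have h3 : (Real.sqrt 2) ^ n ≤ n * (Real.sqrt 2) ^ n := by
      have : 0 < (Real.sqrt 2) ^ n := by positivity
      nlinarith
    rw [← hQ] at h3
    linarith
  obtain ⟨e, he⟩ : ∃ e, 2 * (2 * s + 1) = n + e := ⟨2 * (2 * s + 1) - n, by omega⟩
  -- the size of `2^e`
  have h2e : (2 : ℝ) ^ e ≤ 64 * n ^ 2 := by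
    have h1 : (2 : ℝ) ^ n * 2 ^ e = 4 * (4 ^ s) ^ 2 := by
      rw [← pow_add, ← he, show 2 * (2 * s + 1) = 2 * (2 * s) + 2 by ring, pow_add, pow_mul,
        pow_mul]
      rw [show ((2 : ℝ) ^ 2) = 4 by norm_num, ← pow_mul, ← pow_mul, mul_comm 2 s]
      ring
    have h2 : ((4 : ℝ) ^ s) ^ 2 ≤ (4 * Q) ^ 2 := pow_le_pow_left₀ (by positivity) hsQ 2
    have h3 : (4 * Q) ^ 2 = 16 * (n : ℝ) ^ 2 * (2 : ℝ) ^ n := by
      rw [hQ]
      have : ((Real.sqrt 2) ^ n) ^ 2 = 2 ^ n := by
        rw [← pow_mul, mul_comm n 2, pow_mul, hsq2]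
      calc (4 * ((n : ℝ) * Real.sqrt 2 ^ n)) ^ 2 =
            16 * (n : ℝ) ^ 2 * ((Real.sqrt 2) ^ n) ^ 2 := by ring
        _ = _ := by rw [this]
    have h4 : (2 : ℝ) ^ n * 2 ^ e ≤ 2 ^ n * (64 * n ^ 2) := by
      rw [h1]
      have h5 : ((4 : ℝ) ^ s) ^ 2 ≤ 16 * (n : ℝ) ^ 2 * (2 : ℝ) ^ n := h3 ▸ h2
      linarith
    exact le_of_mul_le_mul_left h4 (by positivity)
  have heK : (e : ℝ) ≤ 6 + 3 * K := by
    have h1 : Real.log ((2 : ℝ) ^ e) ≤ Real.log (64 * n ^ 2) :=
      Real.log_le_log (by positivity) h2e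
    rw [Real.log_pow, Real.log_mul (by norm_num) (by positivity), Real.log_pow,
      show (64 : ℝ) = 2 ^ 6 by norm_num, Real.log_pow] at h1
    push_cast at h1
    rw [← hK] at h1
    by_contra hcon
    push Not at hcon
    nlinarith
  have hpow : 1 / 4 ≤ (2 * y) ^ e := by
    have h1 : 1 + (e : ℝ) * (-(2 * u)) ≤ (1 + -(2 * u)) ^ e :=
      one_add_mul_le_pow (by linarith) e
    have h2 : (e : ℝ) * (2 * u) ≤ 3 / 4 := by
      have h3 : (e : ℝ) * (2 * u) ≤ (6 + 3 * K) * (2 * (2 / (48 * K))) := by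
        apply mul_le_mul heK (by linarith) (by positivity) (by positivity)
      refine h3.trans ?_
      rw [show (6 + 3 * K) * (2 * (2 / (48 * K))) = (24 + 12 * K) / (48 * K) by
        field_simp; ring]
      rw [div_le_div_iff₀ (by positivity) (by norm_num)]
      linarith
    have h4 : 2 * y = 1 + -(2 * u) := by rw [hyu]; ring
    rw [h4]
    linarith
  have hye : 1 / (256 * (n : ℝ) ^ 2) ≤ y ^ e := by
    rw [mul_pow] at hpow
    rw [div_le_iff₀ (by positivity)]
    have h1 : (2 : ℝ) ^ e * y ^ e ≤ (64 * n ^ 2) * y ^ e :=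
      mul_le_mul_of_nonneg_right h2e (by positivity)
    linarith
  -- the main term
  have hmain : 1 / (512 * (n : ℝ) ^ 2) ≤
      ((∑ P ∈ M, (x / y) ^ P.card) * y ^ (2 * s + 1)) ^ 2 := by
    have h1 := weights M x y hy0 hxy1 hyx
    have h2 : ((2 : ℝ) ^ n - (unions M).card) * x ^ n ≤ 1 / 2 := by
      have h3 : x ≤ 3 / 5 := by rw [hx]; linarith
      have h4 : Real.sqrt 2 * x ≤ 17 / 20 := by
        have h5 : Real.sqrt 2 ≤ 17 / 12 := by
          rw [Real.sqrt_le_left (by norm_num)]; norm_num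
        calc Real.sqrt 2 * x ≤ 17 / 12 * (3 / 5) :=
              mul_le_mul h5 h3 hx0.le (by norm_num)
          _ = 17 / 20 := by norm_num
      calc ((2 : ℝ) ^ n - (unions M).card) * x ^ n ≤ Q * x ^ n :=
            mul_le_mul_of_nonneg_right hmQ (by positivity)
        _ = n * (Real.sqrt 2 * x) ^ n := by rw [hQ, mul_pow]; ring
        _ ≤ n * (17 / 20) ^ n := by
            apply mul_le_mul_of_nonneg_left _ hnpos.le
            exact pow_le_pow_left₀ (by positivity) h4 n
        _ ≤ 1 / 2 := hn1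
    have h3 : (1 / 2) / y ^ n ≤ (∑ P ∈ M, (x / y) ^ P.card) ^ 2 := by
      refine le_trans ?_ h1
      apply div_le_div_of_nonneg_right _ (by positivity)
      linarith
    have h4 : (y ^ (2 * s + 1)) ^ 2 = y ^ n * y ^ e := by
      rw [← pow_mul, ← pow_add]
      congr 1
      omega
    rw [mul_pow, h4]
    calc 1 / (512 * (n : ℝ) ^ 2) = (1 / 2) * (1 / (256 * (n : ℝ) ^ 2)) := by
          field_simp; norm_num
      _ ≤ (1 / 2) * y ^ e := by linarith
      _ = ((1 / 2) / y ^ n) * (y ^ n * y ^ e) := by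
          have : y ^ n ≠ 0 := by positivity
          field_simp
      _ ≤ (∑ P ∈ M, (x / y) ^ P.card) ^ 2 * (y ^ n * y ^ e) :=
          mul_le_mul_of_nonneg_right h3 (by positivity)
  have hmain' : 1 / (23 * (n : ℝ)) ≤ (∑ P ∈ M, (x / y) ^ P.card) * y ^ (2 * s + 1) := by
    have h1 : 0 ≤ (∑ P ∈ M, (x / y) ^ P.card) * y ^ (2 * s + 1) := by
      apply mul_nonneg _ (by positivity)
      apply sum_nonneg
      intro P _
      positivity
    have h2 : (1 / (23 * (n : ℝ))) ^ 2 ≤
        ((∑ P ∈ M, (x / y) ^ P.card) * y ^ (2 * s + 1)) ^ 2 := by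
      refine le_trans ?_ hmain
      rw [div_pow, one_pow]
      apply one_div_le_one_div_of_le (by positivity)
      nlinarith [sq_nonneg (n : ℝ)]
    exact (sq_le_sq₀ (by positivity) h1).1 h2
  -- the small term
  have hsmall : (4 * (x * y)) ^ s * y ≤ 1 / (46 * (n : ℝ)) := by
    have h1 : 4 * (x * y) = 1 - 4 * u ^ 2 := by rw [hx, hyu]; ring
    have h2 : (4 * (x * y)) ^ s ≤ Real.exp (-(4 * u ^ 2)) ^ s := by
      rw [h1]
      apply pow_le_pow_left₀
      · nlinarith
      · have := Real.add_one_le_exp (-(4 * u ^ 2))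
        linarith
    rw [← Real.exp_nat_mul] at h2
    have h3 : (s : ℝ) * (-(4 * u ^ 2)) ≤ -(n / (2304 * K ^ 2)) := by
      have h4 : (n : ℝ) ≤ 4 * s := by exact_mod_cast hns
      have h5 : (1 / (48 * K)) ^ 2 ≤ u ^ 2 := pow_le_pow_left₀ (by positivity) hu1 2
      have h6 : (1 / (48 * K)) ^ 2 = 1 / (2304 * K ^ 2) := by
        rw [div_pow, mul_pow]; norm_num
      rw [h6] at h5
      have h7 : (n : ℝ) / (2304 * K ^ 2) = n * (1 / (2304 * K ^ 2)) := by ring
      rw [h7]
      have h8 : (n : ℝ) * (1 / (2304 * K ^ 2)) ≤ (4 * s) * u ^ 2 :=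
        mul_le_mul h4 h5 (by positivity) (by positivity)
      linarith
    have h4 : (4 * (x * y)) ^ s ≤ 1 / (23 * n) :=
      (h2.trans (Real.exp_le_exp.2 h3)).trans hn2
    calc (4 * (x * y)) ^ s * y ≤ 1 / (23 * n) * (1 / 2) :=
          mul_le_mul h4 hy12 hy0.le (by positivity)
      _ = 1 / (46 * (n : ℝ)) := by field_simp; norm_num
  have hsplit := weight_split M hD x y hy0 hyx
  have h46 : 1 / (23 * (n : ℝ)) = 1 / (46 * (n : ℝ)) + 1 / (46 * (n : ℝ)) := by
    field_simp; norm_num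
  linarith

end Pool.Agent.Lib.MP_e9f532_co.Dfc
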