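import Mathlib
import Pool.Agent.Lib.MP_e9f532_co.Dfc.Lower

set_option autoImplicit false

/-!
The lower bound for the number of sets that are not unions of two different members of an
antichain: final form.
-/

namespace Pool.Agent.Lib.MP_e9f532_co.Dfc

open Finset
open scoped FinsetFamily

lemma lower_of_large {n : ℕ} (hn : 8 ≤ n)
    (hn1 : (n : ℝ) * (17 / 20) ^ n ≤ 1 / 2)
    (hn2 : Real.exp (-(n / (2304 * Real.log n ^ 2))) ≤ 1 / (23 * n))
    (hn3 : 4 * (n : ℝ) < (Real.sqrt 2) ^ n)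
    (M : Finset (Finset (Fin n))) (hM : IsAntichain (· ⊆ ·) (M : Set (Finset (Fin n)))) :
    1 / 4416 * (n / Real.log n) * (Real.sqrt 2) ^ n ≤ (2 : ℝ) ^ n - (unions M).card := by
  classical
  have hn8 : (8 : ℝ) ≤ n := by exact_mod_cast hn
  have hnpos : (0 : ℝ) < n := by linarith
  have hlog2 : (0.6931471803 : ℝ) < Real.log 2 := Real.log_two_gt_d9
  have hlog : 2 ≤ Real.log n := by
    have h1 : Real.log 8 ≤ Real.log n := Real.log_le_log (by norm_num) hn8
    have h2 : Real.log 8 = 3 * Real.log 2 := by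
      rw [show (8 : ℝ) = 2 ^ 3 by norm_num, Real.log_pow]; norm_num
    linarith
  have hKpos : 0 < Real.log n := by linarith
  have hsq2 : (Real.sqrt 2) ^ 2 = 2 := Real.sq_sqrt (by norm_num)
  have hsq0 : 0 < Real.sqrt 2 := Real.sqrt_pos.2 (by norm_num)
  have hsq1 : 1 ≤ Real.sqrt 2 := by
    rw [Real.one_le_sqrt]; norm_num
  have hpn : 0 < (Real.sqrt 2) ^ n := by positivity
  have hpn1 : 1 ≤ (Real.sqrt 2) ^ n := one_le_pow₀ hsq1
  obtain ⟨Q, hQ⟩ : ∃ Q : ℝ, Q = n * (Real.sqrt 2) ^ n := ⟨_, rfl⟩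
  have hQ0 : 0 < Q := by rw [hQ]; positivity
  by_cases hmQ : (2 : ℝ) ^ n - (unions M).card ≤ Q
  · have hex : ∃ s : ℕ, Q < 4 ^ s := pow_unbounded_of_one_lt Q (by norm_num)
    obtain ⟨s, hs, hmin⟩ : ∃ s : ℕ, Q < 4 ^ s ∧ ∀ t < s, ¬ Q < 4 ^ t :=
      ⟨Nat.find hex, Nat.find_spec hex, fun t ht => Nat.find_min hex ht⟩
    have hs1 : 1 ≤ s := by
      by_contra hcon
      obtain rfl : s = 0 := by omega
      rw [pow_zero] at hs
      have : 1 * 1 ≤ (n : ℝ) * (Real.sqrt 2) ^ n :=
        mul_le_mul (by linarith) hpn1 zero_le_one hnpos.le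
      rw [← hQ] at this
      linarith
    have hsQ : (4 : ℝ) ^ s ≤ 4 * Q := by
      have h1 := hmin (s - 1) (by omega)
      push Not at h1
      have h2 : (4 : ℝ) ^ s = 4 * 4 ^ (s - 1) := by
        rw [← pow_succ']; congr 1; omega
      rw [h2]; linarith
    have hz : 2 * s + 1 ≤ n := by
      by_contra hcon
      push Not at hcon
      have h1 : (2 : ℝ) ^ n ≤ 4 ^ s := by
        have : (4 : ℝ) ^ s = 2 ^ (2 * s) := by rw [pow_mul]; norm_num
        rw [this]
        exact pow_le_pow_right₀ (by norm_num) (by omega)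
      have h2 : (2 : ℝ) ^ n = (Real.sqrt 2) ^ n * (Real.sqrt 2) ^ n := by
        rw [← mul_pow, Real.mul_self_sqrt (by norm_num)]
      have h3 : 4 * Q < (Real.sqrt 2) ^ n * (Real.sqrt 2) ^ n := by
        rw [hQ, ← mul_assoc]
        exact mul_lt_mul_of_pos_right hn3 hpn
      linarith
    have hns : n ≤ 4 * s := by
      by_contra hcon
      push Not at hcon
      have h1 : (4 : ℝ) ^ s = (Real.sqrt 2) ^ (4 * s) := by
        rw [show 4 * s = 2 * (2 * s) by ring, pow_mul, hsq2, pow_mul]; norm_num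
      have h2 : (Real.sqrt 2) ^ (4 * s) ≤ (Real.sqrt 2) ^ n := pow_le_pow_right₀ hsq1 hcon.le
      have h3 : (Real.sqrt 2) ^ n ≤ n * (Real.sqrt 2) ^ n := by nlinarith
      rw [← hQ] at h3
      linarith
    have hDm := down_add_unions M hM
    have hD : (down M).card < 4 ^ s := by
      have h1 : ((down M).card : ℝ) < 4 ^ s := lt_of_le_of_lt (hDm.trans hmQ) hs
      exact_mod_cast h1
    have hF := down_bound hz M hM hD
    have hav := bern_average (z := 2 * s + 1) (Icc s (2 * s + 1))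
      (fun i hi => (mem_Icc.1 hi).2) (fun i => ((M # i).card : ℝ))
      (fun i => Nat.cast_nonneg _) (1 / (46 * (n : ℝ)))
      (1 / 2 + 1 / (48 * Real.log n)) (1 / 2 + 2 / (48 * Real.log n))
      (by positivity)
      (by
        have : 1 / (48 * Real.log n) ≤ 2 / (48 * Real.log n) :=
          div_le_div_of_nonneg_right (by norm_num) (by positivity)
        linarith)
      (by
        have : 2 / (48 * Real.log n) ≤ 1 / 2 := by
          rw [div_le_div_iff₀ (by positivity) (by norm_num)]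
          linarith
        linarith)
      (fun x hx1 hx2 => pointwise hn M hD Q hQ hmQ hs hsQ hn1 hn2 x hx1 hx2)
    set F := ∑ j ∈ Icc s (2 * s + 1), ((M # j).card : ℝ) / (2 * s + 1).choose j with hFdef
    have h1 : 1 / (4416 * Real.log n) ≤ F := by
      refine le_trans ?_ hav
      have h2 : (1 / 2 + 2 / (48 * Real.log n)) - (1 / 2 + 1 / (48 * Real.log n)) =
          1 / (48 * Real.log n) := by ring
      rw [h2]
      have h3 : (n : ℝ) / 2 ≤ ((2 * s + 1 : ℕ) : ℝ) + 1 := by
        have : (n : ℝ) ≤ 4 * s := by exact_mod_cast hns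
        push_cast
        linarith
      calc 1 / (4416 * Real.log n) = 1 / (46 * (n : ℝ)) * (1 / (48 * Real.log n)) * (n / 2) := by
            field_simp; norm_num
        _ ≤ _ := mul_le_mul_of_nonneg_left h3 (by positivity)
    calc 1 / 4416 * (n / Real.log n) * (Real.sqrt 2) ^ n = 1 / (4416 * Real.log n) * Q := by
          rw [hQ]; field_simp
      _ ≤ F * 4 ^ s := by
          apply mul_le_mul h1 hs.le hQ0.le
          exact le_trans (by positivity) h1
      _ ≤ (down M).card := hF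
      _ ≤ _ := hDm
  · push Not at hmQ
    have h1 : 1 / 4416 * ((n : ℝ) / Real.log n) ≤ n := by
      rw [← mul_div_assoc, div_le_iff₀ hKpos]
      nlinarith
    have h2 : 1 / 4416 * ((n : ℝ) / Real.log n) * (Real.sqrt 2) ^ n ≤ Q := by
      rw [hQ]
      exact mul_le_mul_of_nonneg_right h1 hpn.le
    linarith

lemma eventually_exp : ∀ᶠ n : ℕ in Filter.atTop,
    Real.exp (-(n / (2304 * Real.log n ^ 2))) ≤ 1 / (23 * n) := by
  have h1 := (Real.isLittleO_pow_log_id_atTop (n := 3)).bound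
    (show (0 : ℝ) < 1 / 10 ^ 5 by norm_num)
  have h2 := tendsto_natCast_atTop_atTop (R := ℝ) |>.eventually h1
  filter_upwards [h2, Filter.eventually_ge_atTop 8] with n hn hn8'
  have hn8 : (8 : ℝ) ≤ n := by exact_mod_cast hn8'
  have hnpos : (0 : ℝ) < n := by linarith
  have hlog2 : (0.6931471803 : ℝ) < Real.log 2 := Real.log_two_gt_d9
  have hlog2' : Real.log 2 < 0.6931471808 := Real.log_two_lt_d9
  have hlog : 2 ≤ Real.log n := by
    have h1 : Real.log 8 ≤ Real.log n := Real.log_le_log (by norm_num) hn8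
    have h2 : Real.log 8 = 3 * Real.log 2 := by
      rw [show (8 : ℝ) = 2 ^ 3 by norm_num, Real.log_pow]; norm_num
    linarith
  set K := Real.log n with hK
  have hK0 : 0 < K := by linarith
  simp only [id_eq, Real.norm_eq_abs] at hn
  rw [abs_of_nonneg (by positivity), abs_of_nonneg hnpos.le] at hn
  have h3 : Real.log (23 * n) ≤ 3 * K := by
    rw [Real.log_mul (by norm_num) (by positivity)]
    have h4 : Real.log 23 ≤ Real.log (2 ^ 5) := Real.log_le_log (by norm_num) (by norm_num)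
    rw [Real.log_pow] at h4
    push_cast at h4
    linarith
  have h4 : 3 * K ≤ n / (2304 * K ^ 2) := by
    rw [le_div_iff₀ (by positivity)]
    have h5 : K ^ 3 * 10 ^ 5 ≤ n := by
      have := mul_le_mul_of_nonneg_right hn (show (0:ℝ) ≤ 10 ^ 5 by norm_num)
      linarith
    have h6 : 0 < K ^ 3 := by positivity
    nlinarith
  calc Real.exp (-(n / (2304 * K ^ 2))) ≤ Real.exp (-(Real.log (23 * n))) :=
        Real.exp_le_exp.2 (by linarith)
    _ = 1 / (23 * n) := by
        rw [Real.exp_neg, Real.exp_log (by positivity), one_div]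

/-- **Lower bound.** -/
theorem lower_main : ∃ c : ℝ, 0 < c ∧ ∀ n : ℕ, 2 ≤ n → ∀ M : Finset (Finset (Fin n)),
    IsAntichain (· ⊆ ·) (M : Set (Finset (Fin n))) →
    c * (n / Real.log n) * (Real.sqrt 2) ^ n ≤ (2 : ℝ) ^ n - (unions M).card := by
  have e1 : ∀ᶠ n : ℕ in Filter.atTop, (n : ℝ) * (17 / 20) ^ n ≤ 1 / 2 := by
    have h1 := tendsto_self_mul_const_pow_of_lt_one (r := (17 / 20 : ℝ)) (by norm_num)
      (by norm_num)
    exact h1.eventually_le_const (by norm_num)
  have hsq0 : 0 < Real.sqrt 2 := Real.sqrt_pos.2 (by norm_num)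
  have hsq1 : 1 < Real.sqrt 2 := by
    rw [Real.lt_sqrt (by norm_num)]; norm_num
  have e3 : ∀ᶠ n : ℕ in Filter.atTop, 4 * (n : ℝ) < (Real.sqrt 2) ^ n := by
    have h1 := tendsto_self_mul_const_pow_of_lt_one (r := 1 / Real.sqrt 2) (by positivity)
      (by rw [div_lt_one hsq0]; exact hsq1)
    filter_upwards [h1.eventually_lt_const (show (0 : ℝ) < 1 / 4 by norm_num)] with n hn
    have hp : 0 < (Real.sqrt 2) ^ n := by positivity
    rw [div_pow, one_pow, mul_one_div, div_lt_iff₀ hp] at hn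
    linarith
  obtain ⟨N0, hN0⟩ := Filter.eventually_atTop.1
    (e1.and (eventually_exp.and (e3.and (Filter.eventually_ge_atTop 8))))
  have hlog2 : (0.6931471803 : ℝ) < Real.log 2 := Real.log_two_gt_d9
  refine ⟨min (1 / 4416) (1 / (2 * (N0 + 1) * (Real.sqrt 2) ^ N0)), by positivity, ?_⟩
  intro n hn M hM
  have hn2 : (2 : ℝ) ≤ n := by exact_mod_cast hn
  have hlogn : Real.log 2 ≤ Real.log n := Real.log_le_log (by norm_num) hn2
  have hKpos : 0 < Real.log n := by linarith
  rcases Nat.lt_or_ge n N0 with hlt | hge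
  · refine le_trans ?_ (one_le_missing M)
    have h1 : (Real.sqrt 2) ^ n ≤ (Real.sqrt 2) ^ N0 := pow_le_pow_right₀ hsq1.le hlt.le
    have h2 : (n : ℝ) / Real.log n ≤ 2 * (N0 + 1) := by
      rw [div_le_iff₀ hKpos]
      have h3 : (n : ℝ) ≤ N0 := by exact_mod_cast hlt.le
      nlinarith
    calc min (1 / 4416) (1 / (2 * (N0 + 1) * (Real.sqrt 2) ^ N0)) * ((n : ℝ) / Real.log n) *
          (Real.sqrt 2) ^ n
        ≤ (1 / (2 * (N0 + 1) * (Real.sqrt 2) ^ N0)) * (2 * (N0 + 1)) * (Real.sqrt 2) ^ N0 := by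
          apply mul_le_mul _ h1 (by positivity) (by positivity)
          apply mul_le_mul (min_le_right _ _) h2 (by positivity) (by positivity)
      _ = 1 := by field_simp
  · obtain ⟨a1, a2, a3, a4⟩ := hN0 n hge
    refine le_trans ?_ (lower_of_large a4 a1 a2 a3 M hM)
    apply mul_le_mul_of_nonneg_right _ (by positivity)
    apply mul_le_mul_of_nonneg_right (min_le_left _ _) (by positivity)

end Pool.Agent.Lib.MP_e9f532_co.Dfc
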