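import Mathlib

set_option autoImplicit false

/-! Module U7 (numerics). `M = 1280 * N * (N + 1)`, `q = 4 * L + 24`,
`d = 8 * L ^ 2 + 54 * L + 26`, where `2 * N + 1 ≤ 2 ^ L`. -/

namespace Pool.Agent.Lib.MP_e9f532_co.Dfc

/-- A cubic polynomial of `m` is below `2 ^ (m - 1)`. -/
private lemma cubic_step (m : ℕ) (hm : 20 ≤ m) :
    8 * (m + 1) ^ 3 + 54 * (m + 1) ^ 2 + 30 * (m + 1) + 40 ≤
      2 * (8 * m ^ 3 + 54 * m ^ 2 + 30 * m + 40) := by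
  have h1 : 20 * m ≤ m ^ 2 := by rw [pow_two]; exact Nat.mul_le_mul_right _ hm
  have h2 : 20 * m ^ 2 ≤ m ^ 3 := by
    rw [pow_succ m 2, mul_comm (m ^ 2)]; exact Nat.mul_le_mul_right _ hm
  have h3 : 8 * (m + 1) ^ 3 + 54 * (m + 1) ^ 2 + 30 * (m + 1) + 40 =
      8 * m ^ 3 + 78 * m ^ 2 + 162 * m + 132 := by ring
  rw [h3]
  omega

private lemma cubic_lt (m : ℕ) (hm : 20 ≤ m) :
    2 * (8 * m ^ 3 + 54 * m ^ 2 + 30 * m + 40) + 1 ≤ 2 ^ (m - 1) := by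
  induction m, hm using Nat.le_induction with
  | base => norm_num
  | succ m hm ih =>
    have h1 : (2 : ℕ) ^ (m + 1 - 1) = 2 * 2 ^ (m - 1) := by
      rw [Nat.add_sub_cancel, ← pow_succ']
      congr 1; omega
    rw [h1]
    have h2 := cubic_step m hm
    omega

private lemma exists_L (N : ℕ) (hN : 2 ^ 20 ≤ N) :
    ∃ L : ℕ, 1 ≤ L ∧ 2 * N + 1 ≤ 2 ^ L ∧ 8 * L ^ 3 + 54 * L ^ 2 + 30 * L + 40 ≤ N := by
  refine ⟨Nat.log 2 (2 * N + 1) + 1, by omega, ?_, ?_⟩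
  · exact (Nat.lt_pow_succ_log_self (by norm_num) _).le
  · have h1 : 2 ^ Nat.log 2 (2 * N + 1) ≤ 2 * N + 1 := Nat.pow_log_le_self 2 (by omega)
    have h2 : 20 ≤ Nat.log 2 (2 * N + 1) := Nat.le_log_of_pow_le (by norm_num) (by omega)
    have h3 := cubic_lt (Nat.log 2 (2 * N + 1) + 1) (by omega)
    rw [Nat.add_sub_cancel] at h3
    omega

private lemma exp_bound (N : ℕ) (hN : 1 ≤ N) :
    (2 : ℝ) ^ (2 * N) * (1 - 1 / (640 * (N + 1))) ^ (1280 * N * (N + 1)) < 1 := by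
  have hN' : (1 : ℝ) ≤ N := by exact_mod_cast hN
  have hx : (0 : ℝ) ≤ 1 - 1 / (640 * (N + 1)) := by
    rw [sub_nonneg, div_le_one (by positivity)]
    nlinarith
  have h1 : (1 : ℝ) - 1 / (640 * (N + 1)) ≤ Real.exp (-(1 / (640 * (N + 1)))) :=
    Real.one_sub_le_exp_neg _
  have h2 : (1 - 1 / (640 * ((N : ℝ) + 1))) ^ (1280 * N * (N + 1)) ≤
      Real.exp (-(1 / (640 * (N + 1)))) ^ (1280 * N * (N + 1)) :=
    pow_le_pow_left₀ hx h1 _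
  have h3 : Real.exp (-(1 / (640 * ((N : ℝ) + 1)))) ^ (1280 * N * (N + 1)) =
      Real.exp (-1) ^ (2 * N) := by
    rw [← Real.exp_nat_mul, ← Real.exp_nat_mul]
    congr 1
    push_cast
    have : (640 * ((N : ℝ) + 1)) ≠ 0 := by positivity
    field_simp
    ring
  have h4 : (2 : ℝ) ^ (2 * N) * Real.exp (-1) ^ (2 * N) < 1 := by
    rw [← mul_pow]
    have h5 : Real.exp (-1) * Real.exp 1 = 1 := by
      rw [← Real.exp_add]; simp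
    have h6 := Real.exp_one_gt_d9
    have h7 : 0 < Real.exp (-1) := Real.exp_pos _
    refine pow_lt_one₀ (by positivity) ?_ (by omega)
    nlinarith
  calc (2 : ℝ) ^ (2 * N) * (1 - 1 / (640 * (N + 1))) ^ (1280 * N * (N + 1))
      ≤ (2 : ℝ) ^ (2 * N) * Real.exp (-1) ^ (2 * N) := by
        rw [← h3]
        exact mul_le_mul_of_nonneg_left h2 (by positivity)
    _ < 1 := h4

private lemma M_bound (N L : ℕ) (hL : 2 * N + 1 ≤ 2 ^ L) :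
    2 * (N * (1280 * N * (N + 1))) ≤ 2 ^ (12 + 3 * L) := by
  rcases Nat.eq_zero_or_pos N with h0 | h0
  · subst h0; simp
  have h1 : N * N * (N + 1) ≤ 2 ^ L * 2 ^ L * 2 ^ L :=
    Nat.mul_le_mul (Nat.mul_le_mul (by omega) (by omega)) (by omega)
  have h2 : (2 : ℕ) ^ (12 + 3 * L) = 4096 * (2 ^ L * 2 ^ L * 2 ^ L) := by
    rw [pow_add, show 3 * L = L + L + L by ring, pow_add, pow_add]; norm_num
  rw [h2]
  calc 2 * (N * (1280 * N * (N + 1))) = 2560 * (N * N * (N + 1)) := by ring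
    _ ≤ 4096 * (2 ^ L * 2 ^ L * 2 ^ L) := Nat.mul_le_mul (by norm_num) h1

private lemma b_bound (N L d : ℕ) (hd : d = 8 * L ^ 2 + 54 * L + 26) (hL : 2 * N + 1 ≤ 2 ^ L)
    (hc : 8 * L ^ 3 + 54 * L ^ 2 + 30 * L + 40 ≤ N) (hN : 1 ≤ N) :
    2 * ((N * (1280 * N * (N + 1)) : ℕ) : ℝ) * (4 * N * (N + 1) ^ d) ≤
      2 * N * 2 ^ N / (320 * (N + 1)) := by
  have hN1 : N + 1 ≤ 2 ^ L := by omega
  have h1 : 320 * (4 * (2 * (N * (1280 * N * (N + 1))) * (N + 1) ^ d * (N + 1))) ≤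
      2 * 2 ^ N := by
    calc 320 * (4 * (2 * (N * (1280 * N * (N + 1))) * (N + 1) ^ d * (N + 1)))
        ≤ 2 ^ 9 * (2 ^ 2 * (2 ^ (12 + 3 * L) * (2 ^ L) ^ d * 2 ^ L)) := by
          refine Nat.mul_le_mul (by norm_num) (Nat.mul_le_mul (by norm_num) ?_)
          exact Nat.mul_le_mul (Nat.mul_le_mul (M_bound N L hL) (Nat.pow_le_pow_left hN1 _)) hN1
      _ = 2 ^ (8 * L ^ 3 + 54 * L ^ 2 + 30 * L + 23) := by
          rw [← pow_mul, ← pow_add, ← pow_add, ← pow_add, ← pow_add, hd]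
          congr 1; ring
      _ ≤ 2 ^ N := Nat.pow_le_pow_right (by norm_num) (by omega)
      _ ≤ 2 * 2 ^ N := by omega
  have h2 : (320 * (4 * (2 * ((N * (1280 * N * (N + 1)) : ℕ) : ℝ) *
      (N + 1) ^ d * (N + 1)))) ≤ 2 * 2 ^ N := by
    exact_mod_cast h1
  rw [le_div_iff₀ (by positivity)]
  have h3 : (0 : ℝ) ≤ N := by positivity
  calc 2 * ((N * (1280 * N * (N + 1)) : ℕ) : ℝ) * (4 * N * (N + 1) ^ d) * (320 * (N + 1))
      = N * (320 * (4 * (2 * ((N * (1280 * N * (N + 1)) : ℕ) : ℝ) *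
        (N + 1) ^ d * (N + 1)))) := by ring
    _ ≤ N * (2 * 2 ^ N) := mul_le_mul_of_nonneg_left h2 h3
    _ = 2 * N * 2 ^ N := by ring

private lemma d_bound (N L d q : ℕ) (hd : d = 8 * L ^ 2 + 54 * L + 26) (hq : q = 4 * L + 24)
    (hL : 2 * N + 1 ≤ 2 ^ L) :
    (2 * ((N * (1280 * N * (N + 1)) : ℕ) : ℝ)) ^ 2 *
      ((2 * N + 1) ^ (2 * q) * 2 ^ (N + 2) / 2 ^ d) ≤ 2 ^ N := by
  have h1 : (2 * (N * (1280 * N * (N + 1)))) ^ 2 * ((2 * N + 1) ^ (2 * q) * 2 ^ 2) ≤ 2 ^ d := by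
    calc (2 * (N * (1280 * N * (N + 1)))) ^ 2 * ((2 * N + 1) ^ (2 * q) * 2 ^ 2)
        ≤ (2 ^ (12 + 3 * L)) ^ 2 * ((2 ^ L) ^ (2 * q) * 2 ^ 2) := by
          refine Nat.mul_le_mul (Nat.pow_le_pow_left (M_bound N L hL) _) ?_
          exact Nat.mul_le_mul_right _ (Nat.pow_le_pow_left hL _)
      _ = 2 ^ d := by
          rw [← pow_mul, ← pow_mul, ← pow_add, ← pow_add, hd, hq]
          congr 1; ring
  have h2 : (2 * ((N * (1280 * N * (N + 1)) : ℕ) : ℝ)) ^ 2 * ((2 * N + 1) ^ (2 * q) * 2 ^ 2) ≤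
      2 ^ d := by
    exact_mod_cast h1
  have h3 : (0 : ℝ) < 2 ^ d := by positivity
  calc (2 * ((N * (1280 * N * (N + 1)) : ℕ) : ℝ)) ^ 2 *
        ((2 * N + 1) ^ (2 * q) * 2 ^ (N + 2) / 2 ^ d)
      = ((2 * ((N * (1280 * N * (N + 1)) : ℕ) : ℝ)) ^ 2 * ((2 * N + 1) ^ (2 * q) * 2 ^ 2)) *
        2 ^ N / 2 ^ d := by rw [pow_add 2 N 2]; ring
    _ ≤ 2 ^ d * 2 ^ N / 2 ^ d := by
        apply div_le_div_of_nonneg_right _ h3.le
        exact mul_le_mul_of_nonneg_right h2 (by positivity)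
    _ = 2 ^ N := by field_simp

theorem numerics : ∃ N₀ : ℕ, ∀ N ≥ N₀, ∃ q d M : ℕ, d ≤ N ∧ M = 1280 * N * (N + 1) ∧
    1280 * (N + 1) * (2 * (N * M)) ≤ 2 ^ q ∧
    2 * ((N * M : ℕ) : ℝ) * (4 * N * (N + 1) ^ d) ≤ 2 * N * 2 ^ N / (320 * (N + 1)) ∧
    (2 : ℝ) ^ (2 * N) * (1 - 1 / (640 * (N + 1))) ^ M < 1 ∧
    (2 * ((N * M : ℕ) : ℝ)) ^ 2 * ((2 * N + 1) ^ (2 * q) * 2 ^ (N + 2) / 2 ^ d) ≤ 2 ^ N := by
  refine ⟨2 ^ 20, fun N hN => ?_⟩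
  obtain ⟨L, hL1, hL, hc⟩ := exists_L N hN
  have hN1 : 1 ≤ N := by omega
  refine ⟨4 * L + 24, 8 * L ^ 2 + 54 * L + 26, 1280 * N * (N + 1), ?_, rfl, ?_,
    b_bound N L _ rfl hL hc hN1, exp_bound N hN1, d_bound N L _ _ rfl rfl hL⟩
  · have h1 : L ^ 2 ≤ L ^ 3 := Nat.pow_le_pow_right hL1 (by norm_num)
    have h2 : L ≤ L ^ 2 := by nlinarith
    omega
  · calc 1280 * (N + 1) * (2 * (N * (1280 * N * (N + 1))))
        ≤ 2 ^ 11 * 2 ^ L * 2 ^ (12 + 3 * L) :=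
          Nat.mul_le_mul (Nat.mul_le_mul (by norm_num) (by omega)) (M_bound N L hL)
      _ = 2 ^ (4 * L + 23) := by rw [← pow_add, ← pow_add]; congr 1; ring
      _ ≤ 2 ^ (4 * L + 24) := Nat.pow_le_pow_right (by norm_num) (by omega)

end Pool.Agent.Lib.MP_e9f532_co.Dfc
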