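import Mathlib
import Pool.Agent.Lib.MP_e9f532_co.Dfc.Defs

set_option autoImplicit false

/-! The antichain built from the trials of all levels. -/

namespace Pool.Agent.Lib.MP_e9f532_co.Dfc

open Finset

/-- The family: sets of size `l` inside a cube of level `l` and inside no cube of a higher level. -/
def fam {N : ℕ} (T : ℕ → Finset (Trial N)) : Finset (Finset (G N)) :=
  univ.filter (fun P => P.card ≤ N ∧ (∃ Z ∈ allCubes (T P.card), P ⊆ Z) ∧
    ∀ Z ∈ allCubes (above T P.card), ¬ P ⊆ Z)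

lemma allCubes_mono {N : ℕ} {S S' : Finset (Trial N)} (h : S ⊆ S') :
    allCubes S ⊆ allCubes S' := biUnion_subset_biUnion_of_subset_left _ h

lemma above_mono {N : ℕ} (T : ℕ → Finset (Trial N)) {l l' : ℕ} (h : l ≤ l') :
    above T l' ⊆ above T l := by
  apply biUnion_subset_biUnion_of_subset_left
  exact Finset.Ioc_subset_Ioc_left h

lemma Reg.mono {N q : ℕ} {Zs Zs' : Finset (Finset (G N))} {C : Finset (G N)} (h : Zs ⊆ Zs')
    (hC : Reg q Zs' C) : Reg q Zs C :=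
  ⟨hC.1, hC.2.1, fun Z hZ => hC.2.2.1 Z (h hZ), fun Z hZ Z' hZ' => hC.2.2.2 Z (h hZ) Z' (h hZ')⟩

lemma fam_antichain {N : ℕ} (T : ℕ → Finset (Trial N)) :
    ∀ Q ∈ fam T, ∀ Q' ∈ fam T, Q ⊆ Q' → Q = Q' := by
  intro Q hQ Q' hQ' hsub
  by_contra hne
  have hlt : Q.card < Q'.card := card_lt_card (hsub.ssubset_of_ne hne)
  rw [fam, mem_filter] at hQ hQ'
  obtain ⟨Z, hZ, hQZ⟩ := hQ'.2.2.1
  refine hQ.2.2.2 Z ?_ (hsub.trans hQZ)
  have h1 : T Q'.card ⊆ above T Q.card := by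
    intro t ht
    rw [above, mem_biUnion]
    exact ⟨Q'.card, mem_Ioc.2 ⟨hlt, hQ'.2.1⟩, ht⟩
  exact allCubes_mono h1 hZ

lemma cube_mem_allCubes {N : ℕ} {S : Finset (Trial N)} {t : Trial N} (ht : t ∈ S) :
    cube t.1 t.2 ∈ allCubes S ∧ cube (opp t.1) t.2 ∈ allCubes S := by
  constructor <;> rw [allCubes, mem_biUnion] <;> refine ⟨t, ht, ?_⟩ <;> simp [cubes]

lemma fam_covers {N q : ℕ} (hN : 20 ≤ N) (T : ℕ → Finset (Trial N))
    (hT : ∀ C : Finset (G N), 1 ≤ lev C → lev C ≤ N → Reg q (allCubes (above T (lev C))) C →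
        ∃ t ∈ T (lev C), Cov (allCubes (above T (lev C))) t C)
    (C : Finset (G N)) (hC : Reg q (allCubes (above T 0)) C) :
    ∃ Q ∈ fam T, ∃ Q' ∈ fam T, Q ≠ Q' ∧ Q ∪ Q' = C := by
  have hc1 : N ≤ 10 * C.card := hC.1
  have hc2 : 10 * C.card ≤ 19 * N := hC.2.1
  have hl : lev C = (C.card + 1) / 2 := rfl
  obtain ⟨t, ht, h1, h2, h3⟩ := hT C (by omega) (by omega)
    (hC.mono (allCubes_mono (above_mono T (Nat.zero_le _))))
  obtain ⟨hm1, hm2⟩ := cube_mem_allCubes ht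
  refine ⟨C ∩ cube t.1 t.2, ?_, C ∩ cube (opp t.1) t.2, ?_, ?_, inter_cubes_union _ _ _⟩
  · rw [fam, mem_filter]
    refine ⟨mem_univ _, by omega, ?_, ?_⟩
    · rw [h1]
      exact ⟨_, hm1, inter_subset_right⟩
    · rw [h1]
      exact fun Z hZ => (h3 Z hZ).1
  · rw [fam, mem_filter]
    refine ⟨mem_univ _, by omega, ?_, ?_⟩
    · rw [h2]
      exact ⟨_, hm2, inter_subset_right⟩
    · rw [h2]
      exact fun Z hZ => (h3 Z hZ).2
  · intro heq
    have h4 := inter_cubes_union t.1 t.2 C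
    rw [← heq, union_self] at h4
    have h5 := congrArg Finset.card h4
    rw [h1] at h5
    omega

/-- Transport to an `n`-set, `n ≤ 2 N`. -/
lemma transport {n N : ℕ} (hn : n ≤ 2 * N) (Fam : Finset (Finset (G N)))
    (hFam : ∀ Q ∈ Fam, ∀ Q' ∈ Fam, Q ⊆ Q' → Q = Q') (Bad : Finset (Finset (G N)))
    (hcov : ∀ C, C ∉ Bad → ∃ Q ∈ Fam, ∃ Q' ∈ Fam, Q ≠ Q' ∧ Q ∪ Q' = C) :
    ∃ (M E : Finset (Finset (Fin n))), (∀ Q ∈ M, ∀ Q' ∈ M, Q ⊆ Q' → Q = Q') ∧
      E.card ≤ Bad.card ∧ ∀ D, D ∉ E → ∃ Q ∈ M, ∃ Q' ∈ M, Q ≠ Q' ∧ Q ∪ Q' = D := by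
  classical
  have hcard : Fintype.card (Fin n) ≤ Fintype.card (G N) := by
    simp only [Fintype.card_fin, Fintype.card_prod, Fintype.card_bool]
    omega
  obtain ⟨e⟩ := Function.Embedding.nonempty_of_card_le hcard
  refine ⟨univ.filter (fun P => P.map e ∈ Fam), univ.filter (fun P => P.map e ∈ Bad), ?_, ?_, ?_⟩
  · intro Q hQ Q' hQ' hsub
    rw [mem_filter] at hQ hQ'
    have := hFam _ hQ.2 _ hQ'.2 (map_subset_map.2 hsub)
    exact map_injective e this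
  · apply card_le_card_of_injOn (fun P => P.map e)
    · intro P hP
      simp only [coe_filter, mem_univ, true_and, Set.mem_setOf_eq] at hP
      exact hP
    · intro P _ P' _ h
      exact map_injective e h
  · intro D hD
    rw [mem_filter, not_and] at hD
    obtain ⟨Q, hQ, Q', hQ', hne, hun⟩ := hcov _ (hD (mem_univ _))
    have h1 : Q ⊆ D.map e := by rw [← hun]; exact subset_union_left
    have h2 : Q' ⊆ D.map e := by rw [← hun]; exact subset_union_right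
    obtain ⟨P, hPD, hP⟩ := subset_map_iff.1 h1
    obtain ⟨P', hPD', hP'⟩ := subset_map_iff.1 h2
    refine ⟨P, ?_, P', ?_, ?_, ?_⟩
    · rw [mem_filter]; exact ⟨mem_univ _, by rw [← hP]; exact hQ⟩
    · rw [mem_filter]; exact ⟨mem_univ _, by rw [← hP']; exact hQ'⟩
    · intro h; apply hne; rw [hP, hP', h]
    · apply map_injective e
      rw [map_union, ← hP, ← hP', hun]

end Pool.Agent.Lib.MP_e9f532_co.Dfc
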