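import Mathlib
import Pool.Agent.Lib.MP_e9f532_co.Dfc.Structure
import Pool.Agent.Lib.MP_e9f532_co.Dfc.Levels
import Pool.Agent.Lib.MP_e9f532_co.Dfc.Exceptional
import Pool.Agent.Lib.MP_e9f532_co.Dfc.Numerics

set_option autoImplicit false

/-! The upper bound for the deficiency: an antichain that misses at most `C n^4 2^(n/2)` sets. -/

namespace Pool.Agent.Lib.MP_e9f532_co.Dfc

open Finset

lemma upper_pairs : ∃ N₀ : ℕ, ∀ N ≥ N₀, ∃ (Fam Bad : Finset (Finset (G N))),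
    (∀ Q ∈ Fam, ∀ Q' ∈ Fam, Q ⊆ Q' → Q = Q') ∧
    (Bad.card : ℝ) ≤ 40000 * (N : ℝ) ^ 4 * 2 ^ N ∧
    ∀ C, C ∉ Bad → ∃ Q ∈ Fam, ∃ Q' ∈ Fam, Q ≠ Q' ∧ Q ∪ Q' = C := by
  obtain ⟨N₀, hN₀⟩ := numerics
  refine ⟨max N₀ 40, fun N hN => ?_⟩
  obtain ⟨q, d, M, hdN, hMdef, hq, hd, hM, hfin⟩ := hN₀ N (le_of_max_le_left hN)
  have hN40 : 40 ≤ N := le_of_max_le_right hN
  obtain ⟨T, hT1, hT2, hT3⟩ := exists_levels hN40 hq hd hM
  refine ⟨fam T, univ.filter (fun C => ¬ Reg q (allCubes (above T 0)) C), fam_antichain T, ?_, ?_⟩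
  · have h1 := card_not_reg (q := q) hdN (above T 0) hT2
    have h2 : (above T 0).card ≤ N * M := by
      calc (above T 0).card ≤ ∑ l ∈ Finset.Ioc 0 N, (T l).card := card_biUnion_le
        _ ≤ ∑ _l ∈ Finset.Ioc 0 N, M := sum_le_sum (fun l _ => hT1 l)
        _ = N * M := by simp
    have h3 : ((above T 0).card : ℝ) ≤ ((N * M : ℕ) : ℝ) := by exact_mod_cast h2
    have h4 : (2 * ((above T 0).card : ℝ)) ^ 2 * ((2 * N + 1) ^ (2 * q) * 2 ^ (N + 2) / 2 ^ d) ≤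
        2 ^ N := by
      refine le_trans ?_ hfin
      apply mul_le_mul_of_nonneg_right _ (by positivity)
      apply pow_le_pow_left₀ (by positivity)
      linarith
    have h5 : 2 * ((above T 0).card : ℝ) * ((2 * N + 1) * 2 ^ (N + 1)) ≤
        2 * ((N * M : ℕ) : ℝ) * ((2 * N + 1) * 2 ^ (N + 1)) := by
      apply mul_le_mul_of_nonneg_right _ (by positivity)
      linarith
    have hN1 : (40 : ℝ) ≤ N := by exact_mod_cast hN40
    have h6 : 2 * ((N * M : ℕ) : ℝ) * ((2 * N + 1) * 2 ^ (N + 1)) ≤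
        30720 * (N : ℝ) ^ 4 * 2 ^ N := by
      rw [hMdef]
      push_cast
      have h7 : ((N : ℝ) + 1) * (2 * N + 1) ≤ 2 * N * (3 * N) := by nlinarith
      have h8 : (0 : ℝ) ≤ 5120 * (N : ℝ) ^ 2 * 2 ^ N := by positivity
      calc 2 * ((N : ℝ) * (1280 * N * (N + 1))) * ((2 * N + 1) * 2 ^ (N + 1))
          = (5120 * (N : ℝ) ^ 2 * 2 ^ N) * (((N : ℝ) + 1) * (2 * N + 1)) := by
            rw [pow_succ]; ring
        _ ≤ (5120 * (N : ℝ) ^ 2 * 2 ^ N) * (2 * N * (3 * N)) := mul_le_mul_of_nonneg_left h7 h8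
        _ = 30720 * (N : ℝ) ^ 4 * 2 ^ N := by ring
    have h9 : (3 : ℝ) * 2 ^ N ≤ 3 * (N : ℝ) ^ 4 * 2 ^ N := by
      apply mul_le_mul_of_nonneg_right _ (by positivity)
      have : (1 : ℝ) ≤ (N : ℝ) ^ 4 := one_le_pow₀ (by linarith)
      linarith
    have h10 : (0 : ℝ) ≤ (N : ℝ) ^ 4 * 2 ^ N := by positivity
    nlinarith
  · intro C hC
    rw [mem_filter, not_and, not_not] at hC
    exact fam_covers (by omega) T hT3 C (hC (mem_univ _))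

/-- **Upper bound for the number of missing sets.** -/
theorem upper_main : ∃ K : ℝ, ∀ n : ℕ, 1 ≤ n → ∃ (M E : Finset (Finset (Fin n))),
    (∀ Q ∈ M, ∀ Q' ∈ M, Q ⊆ Q' → Q = Q') ∧ (E.card : ℝ) ≤ K * (n : ℝ) ^ 4 * (Real.sqrt 2) ^ n ∧
      ∀ D, D ∉ E → ∃ Q ∈ M, ∃ Q' ∈ M, Q ≠ Q' ∧ Q ∪ Q' = D := by
  obtain ⟨N₀, hN₀⟩ := upper_pairs
  have hsq1 : 1 < Real.sqrt 2 := by
    rw [Real.lt_sqrt (by norm_num)]; norm_num
  have hsq2 : Real.sqrt 2 * Real.sqrt 2 = 2 := Real.mul_self_sqrt (by norm_num)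
  have hsq3 : Real.sqrt 2 ≤ 2 := by nlinarith
  refine ⟨max 80000 ((2 : ℝ) ^ (2 * N₀)), fun n hn => ?_⟩
  have hn1 : (1 : ℝ) ≤ n := by exact_mod_cast hn
  have hn4 : (1 : ℝ) ≤ (n : ℝ) ^ 4 := one_le_pow₀ hn1
  have hp : (1 : ℝ) ≤ (Real.sqrt 2) ^ n := one_le_pow₀ hsq1.le
  obtain ⟨N, hN1, hN2⟩ : ∃ N, n ≤ 2 * N ∧ 2 * N ≤ n + 1 := ⟨(n + 1) / 2, by omega, by omega⟩
  rcases Nat.lt_or_ge N N₀ with hlt | hge
  · refine ⟨∅, univ, by simp, ?_, fun D hD => absurd (mem_univ D) hD⟩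
    have h1 : ((univ : Finset (Finset (Fin n))).card : ℝ) = 2 ^ n := by
      simp
    rw [h1]
    have h2 : (2 : ℝ) ^ n ≤ 2 ^ (2 * N₀) := pow_le_pow_right₀ (by norm_num) (by omega)
    have h3 : (2 : ℝ) ^ (2 * N₀) ≤ max 80000 ((2 : ℝ) ^ (2 * N₀)) := le_max_right _ _
    have h4 : (0 : ℝ) < max 80000 ((2 : ℝ) ^ (2 * N₀)) := lt_max_of_lt_left (by norm_num)
    calc (2 : ℝ) ^ n ≤ max 80000 ((2 : ℝ) ^ (2 * N₀)) := h2.trans h3
      _ = max 80000 ((2 : ℝ) ^ (2 * N₀)) * 1 * 1 := by ring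
      _ ≤ max 80000 ((2 : ℝ) ^ (2 * N₀)) * (n : ℝ) ^ 4 * (Real.sqrt 2) ^ n := by
          apply mul_le_mul _ hp (by norm_num) (by positivity)
          exact mul_le_mul_of_nonneg_left hn4 h4.le
  · obtain ⟨Fam, Bad, h1, h2, h3⟩ := hN₀ N hge
    obtain ⟨M, E, hM, hE, hcov⟩ := transport hN1 Fam h1 Bad h3
    refine ⟨M, E, hM, ?_, hcov⟩
    have h4 : (E.card : ℝ) ≤ 40000 * (N : ℝ) ^ 4 * 2 ^ N :=
      le_trans (by exact_mod_cast hE) h2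
    refine h4.trans ?_
    have h5 : (N : ℝ) ≤ n := by
      have : N ≤ n := by omega
      exact_mod_cast this
    have h6 : (2 : ℝ) ^ N ≤ 2 * (Real.sqrt 2) ^ n := by
      have h7 : (2 : ℝ) ^ N = (Real.sqrt 2) ^ (2 * N) := by
        rw [pow_mul, sq, hsq2]
      rw [h7]
      calc (Real.sqrt 2) ^ (2 * N) ≤ (Real.sqrt 2) ^ (n + 1) := pow_le_pow_right₀ hsq1.le hN2
        _ = (Real.sqrt 2) ^ n * Real.sqrt 2 := pow_succ _ _
        _ ≤ (Real.sqrt 2) ^ n * 2 := mul_le_mul_of_nonneg_left hsq3 (by positivity)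
        _ = 2 * (Real.sqrt 2) ^ n := by ring
    have h8 : (N : ℝ) ^ 4 ≤ (n : ℝ) ^ 4 := pow_le_pow_left₀ (by positivity) h5 4
    calc 40000 * (N : ℝ) ^ 4 * 2 ^ N ≤ 40000 * (n : ℝ) ^ 4 * (2 * (Real.sqrt 2) ^ n) := by
          apply mul_le_mul _ h6 (by positivity) (by positivity)
          linarith
      _ = 80000 * (n : ℝ) ^ 4 * (Real.sqrt 2) ^ n := by ring
      _ ≤ max 80000 ((2 : ℝ) ^ (2 * N₀)) * (n : ℝ) ^ 4 * (Real.sqrt 2) ^ n := by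
          apply mul_le_mul_of_nonneg_right _ (by positivity)
          apply mul_le_mul_of_nonneg_right (le_max_left _ _) (by positivity)

end Pool.Agent.Lib.MP_e9f532_co.Dfc
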